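import Pool.Agent.helper62.CFL.OddR

/-! The final flow with a rational parameter, and the main theorems. -/

namespace Pool.Agent.helper11.CFL.OddCut

open Finset

variable {V E : Type} [Fintype V] [DecidableEq V] [Fintype E] [DecidableEq E]

/-- from a good weighting with parameter `a / b` to an integer flow with absolute values between
`a - b` and `a + b`. -/
theorem flowR_of_good (hRD : RD_stmt) (src tgt : E → V) (a b : ℕ) (hb : 0 < b)
    (hG : GoodR src tgt ((a : ℝ) / b)) :
    ∃ F : E → ℤ, (∀ e, (a : ℤ) - b ≤ |F e| ∧ |F e| ≤ (a : ℤ) + b) ∧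
      ∀ v, ∑ e ∈ univ.filter (fun e => src e = v), F e =
        ∑ e ∈ univ.filter (fun e => tgt e = v), F e := by
  classical
  rcases Nat.lt_or_ge b a with hab | hab
  swap
  · refine ⟨fun _ => 0, fun e => ?_, fun v => by simp⟩
    simp only [abs_zero]
    constructor
    · have : (a : ℤ) ≤ b := by exact_mod_cast hab
      linarith
    · positivity
  have hbR : (0 : ℝ) < b := by exact_mod_cast hb
  have habR : (b : ℝ) < a := by exact_mod_cast hab
  set K : ℝ := (a : ℝ) / b with hK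
  have hbK : (b : ℝ) * K = a := by rw [hK]; field_simp
  have hK1 : 1 < K := by rw [hK, lt_div_iff₀ hbR]; linarith
  have hKpos : 0 < K := by linarith
  set d : V → ℤ := dvz src tgt (fun _ => 1) with hd
  have haR : ∀ v, dv src tgt (fun _ => (1 : ℝ)) v = d v := by
    intro v
    have := dv_cast src tgt (fun _ => (1 : ℤ)) v
    simpa using this
  have hpar : ∀ v, ∃ z : ℤ, (ct src tgt {v} : ℤ) = d v + 2 * z := by
    intro v
    have h1 := pr_eq src tgt {v}
    have h2 : (pr src tgt {v} : ℤ) = ∑ e ∈ univ.filter (fun e => src e = v), (1 : ℤ)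
        + ∑ e ∈ univ.filter (fun e => tgt e = v), (1 : ℤ) := by
      simp only [pr, Finset.mem_singleton, Finset.sum_add_distrib, Finset.sum_filter]
      push_cast
      rfl
    have h3 : d v = ∑ e ∈ univ.filter (fun e => src e = v), (1 : ℤ)
        - ∑ e ∈ univ.filter (fun e => tgt e = v), (1 : ℤ) := rfl
    refine ⟨∑ e ∈ univ.filter (fun e => tgt e = v), (1 : ℤ) - bt src tgt {v}, ?_⟩
    have h4 : (pr src tgt {v} : ℤ) = ct src tgt {v} + 2 * bt src tgt {v} := by
      rw [h1]; push_cast; ring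
    linarith
  obtain ⟨f, hfb0, hf0⟩ := hG
  have hf1 : ∀ v, ∃ z : ℤ, dv src tgt f v = K * ((d v : ℝ) + 2 * z) := by
    intro v
    obtain ⟨z1, hz1⟩ := hf0 v
    obtain ⟨z2, hz2⟩ := hpar v
    refine ⟨z2 + z1, ?_⟩
    have h5 : (ct src tgt {v} : ℝ) = d v + 2 * z2 := by exact_mod_cast hz2
    rw [hz1, h5]
    push_cast
    ring
  choose z hf' using hf1
  have hfb : ∀ e, -1 ≤ f e ∧ f e ≤ 1 := fun e => abs_le.mp (hfb0 e)
  -- orientation
  obtain ⟨y, hy1, hy2⟩ := hRD V E src tgt (fun e => (1 / 2) * (K⁻¹ * f e + 1)) (by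
    intro v
    refine ⟨d v + z v, ?_⟩
    rw [dv_smul, dv_add, dv_smul, hf', haR]
    rw [← mul_assoc, inv_mul_cancel₀ hKpos.ne']
    push_cast
    ring)
  have hKi : 0 < K⁻¹ := inv_pos.mpr hKpos
  have hKi1 : K⁻¹ ≤ 1 := inv_le_one_of_one_le₀ hK1.le
  have hy : ∀ e, y e = 0 ∨ y e = 1 := by
    intro e
    obtain ⟨h1, h2⟩ := hy1 e
    obtain ⟨h3, h4⟩ := hfb e
    have h5 : 0 ≤ (1 / 2) * (K⁻¹ * f e + 1) := by nlinarith
    have h6 : (1 / 2) * (K⁻¹ * f e + 1) ≤ 1 := by nlinarith
    have h7 : (0 : ℤ) ≤ ⌊(1 / 2) * (K⁻¹ * f e + 1)⌋ := Int.floor_nonneg.mpr h5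
    have h8 : ⌈(1 / 2) * (K⁻¹ * f e + 1)⌉ ≤ (1 : ℤ) := by
      apply Int.ceil_le.mpr
      simpa using h6
    omega
  have hdy : ∀ v, dv src tgt (fun e => (y e : ℝ)) v = (d v : ℝ) + z v := by
    intro v
    rw [hy2 v, dv_smul, dv_add, dv_smul, hf', haR]
    rw [← mul_assoc, inv_mul_cancel₀ hKpos.ne']
    ring
  -- the flow
  set g : E → ℝ := fun e => (2 * a) * (y e : ℝ) + ((-(a : ℝ)) * (fun _ => (1 : ℝ)) e
    + (-(b : ℝ)) * f e) with hg
  have hdg : ∀ v, dv src tgt g v = 0 := by
    intro v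
    rw [hg, dv_add, dv_smul, dv_add, dv_smul, dv_smul, hdy, haR, hf']
    have h1 : (b : ℝ) * (K * ((d v : ℝ) + 2 * z v)) = a * ((d v : ℝ) + 2 * z v) := by
      rw [← mul_assoc, hbK]
    linarith
  obtain ⟨F, hF1, hF2⟩ := hRD V E src tgt g (fun v => ⟨0, by rw [hdg v]; simp⟩)
  refine ⟨F, fun e => ?_, fun v => ?_⟩
  · obtain ⟨h1, h2⟩ := hF1 e
    obtain ⟨h3, h4⟩ := hfb e
    have habZ : (b : ℤ) < a := by exact_mod_cast hab
    have hbZ : (0 : ℤ) < b := by exact_mod_cast hb
    rcases hy e with h | h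
    · have hge : g e = -(a : ℝ) - b * f e := by
        rw [hg]
        simp only [h]
        push_cast
        ring
      have h5 : (-(a : ℤ) - b) ≤ ⌊g e⌋ := by
        apply Int.le_floor.mpr
        rw [hge]
        push_cast
        nlinarith
      have h6 : ⌈g e⌉ ≤ (-(a : ℤ) + b) := by
        apply Int.ceil_le.mpr
        rw [hge]
        push_cast
        nlinarith
      have h7 : F e ≤ -(a : ℤ) + b := h2.trans h6
      have h8 : -(a : ℤ) - b ≤ F e := h5.trans h1
      rw [abs_of_nonpos (by linarith)]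
      constructor <;> linarith
    · have hge : g e = (a : ℝ) - b * f e := by
        rw [hg]
        simp only [h]
        push_cast
        ring
      have h5 : ((a : ℤ) - b) ≤ ⌊g e⌋ := by
        apply Int.le_floor.mpr
        rw [hge]
        push_cast
        nlinarith
      have h6 : ⌈g e⌉ ≤ ((a : ℤ) + b) := by
        apply Int.ceil_le.mpr
        rw [hge]
        push_cast
        nlinarith
      have h7 : F e ≤ (a : ℤ) + b := h2.trans h6
      have h8 : (a : ℤ) - b ≤ F e := h5.trans h1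
      rw [abs_of_nonneg (by linarith)]
      constructor <;> linarith
  · have h10 : (dvz src tgt F v : ℝ) = 0 := by
      rw [← dv_cast, hF2 v, hdg v]
    have h12 : dvz src tgt F v = 0 := by
      exact_mod_cast h10
    unfold dvz at h12
    linarith

omit [Fintype V] [DecidableEq E] in
/-- number of edges leaving `S`, as in the final statements. -/
theorem ct_eq_card (src tgt : E → V) (S : Finset V) : ct src tgt S =
    (univ.filter (fun e => (src e ∈ S ∧ tgt e ∉ S) ∨ (src e ∉ S ∧ tgt e ∈ S))).card := by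
  rw [Finset.card_filter, ct]

/-- THEOREM A: odd edge cuts of size at least `l` give a flow with values in `±[l-2, l+2]`. -/
theorem odd_cut_flowR (hZO : ZOR_stmt) (hRD : RD_stmt) (l : ℕ) (hl : Odd l) (src tgt : E → V)
    (h : ∀ S : Finset V,
      Odd (univ.filter (fun e => (src e ∈ S ∧ tgt e ∉ S) ∨ (src e ∉ S ∧ tgt e ∈ S))).card →
      l ≤ (univ.filter (fun e => (src e ∈ S ∧ tgt e ∉ S) ∨ (src e ∉ S ∧ tgt e ∈ S))).card) :
    ∃ F : E → ℤ, (∀ e, (l : ℤ) - 2 ≤ |F e| ∧ |F e| ≤ (l : ℤ) + 2) ∧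
      ∀ v, ∑ e ∈ univ.filter (fun e => src e = v), F e =
        ∑ e ∈ univ.filter (fun e => tgt e = v), F e := by
  have hlpos : 0 < l := hl.pos
  have hlR : (0 : ℝ) < l := by exact_mod_cast hlpos
  refine flowR_of_good hRD src tgt l 2 (by norm_num) ?_
  have hcnt : Cnt ((l : ℝ) / (2 : ℕ)) l (Fintype.card V) := by
    intro n q _ _ hqn _
    have h1 : (q : ℝ) ≤ n := by exact_mod_cast hqn
    push_cast
    nlinarith
  refine goodR_of_hyp hZO ((l : ℝ) / (2 : ℕ)) (by positivity) l (Fintype.card V) hl hcnt _ src tgt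
    rfl ⟨fun S hS => ?_, fun X hX => ?_⟩
  · rw [ct_eq_card] at hS ⊢
    exact h S hS
  · by_contra hcon
    push Not at hcon
    have h1 : ∀ i, (X i).Nonempty := by
      intro i
      rw [Finset.nonempty_iff_ne_empty]
      intro hi
      have h2 := hcon i
      rw [hi] at h2
      simp [ct] at h2
      omega
    have h1' : ∀ i, ∃ v, v ∈ X i := fun i => h1 i
    choose t ht using h1'
    have hinj : Function.Injective t := by
      intro i j hij
      by_contra hne
      have := Finset.disjoint_left.mp (hX i j hne) (ht i)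
      rw [hij] at this
      exact this (ht j)
    have h3 := Fintype.card_le_of_injective t hinj
    rw [Fintype.card_fin] at h3
    omega

/-- THEOREM B: with few tight sets. -/
theorem tight_cut_flowR (hZO : ZOR_stmt) (hRD : RD_stmt) (k : ℕ) (src tgt : E → V)
    (h : ∀ S : Finset V,
      Odd (univ.filter (fun e => (src e ∈ S ∧ tgt e ∉ S) ∨ (src e ∉ S ∧ tgt e ∈ S))).card →
      2 * k + 1 ≤
        (univ.filter (fun e => (src e ∈ S ∧ tgt e ∉ S) ∨ (src e ∉ S ∧ tgt e ∈ S))).card)
    (hd : ∀ X : Fin (2 * k + 4) → Finset V, (∀ i j, i ≠ j → Disjoint (X i) (X j)) →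
      ∃ i, (univ.filter (fun e => (src e ∈ X i ∧ tgt e ∉ X i) ∨
        (src e ∉ X i ∧ tgt e ∈ X i))).card ≠ 2 * k + 1) :
    ∃ F : E → ℤ, (∀ e, (k : ℤ) ≤ |F e| ∧ |F e| ≤ (k : ℤ) + 2) ∧
      ∀ v, ∑ e ∈ univ.filter (fun e => src e = v), F e =
        ∑ e ∈ univ.filter (fun e => tgt e = v), F e := by
  obtain ⟨F, hF1, hF2⟩ := flowR_of_good hRD src tgt (k + 1) 1 (by norm_num) (by
    have hcnt : Cnt (((k + 1 : ℕ) : ℝ) / (1 : ℕ)) (2 * k + 1) (2 * k + 3) := by
      intro n q hn hn0 hqn hqt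
      have h1 : 2 * q ≤ n + (2 * k + 2) := by
        obtain ⟨a, ha⟩ := hn
        omega
      have h2 : 2 * (q : ℝ) ≤ n + (2 * k + 2) := by exact_mod_cast h1
      push_cast
      rw [div_one]
      nlinarith
    refine goodR_of_hyp hZO _ (by positivity) (2 * k + 1) (2 * k + 3) ⟨k, rfl⟩ hcnt _ src tgt
      rfl ⟨fun S hS => ?_, fun X hX => ?_⟩
    · rw [ct_eq_card] at hS ⊢
      exact h S hS
    · obtain ⟨i, hi⟩ := hd X hX
      exact ⟨i, by rw [ct_eq_card]; exact hi⟩)
  refine ⟨F, fun e => ?_, hF2⟩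
  obtain ⟨h1, h2⟩ := hF1 e
  push_cast at h1 h2
  constructor <;> linarith

/-- the strength form: at least `(a / b) (|P| - 1)` edges across every partition `P` give a flow
with values in `±[a-b, a+b]`. -/
theorem strength_flow (hZO : ZOR_stmt) (hRD : RD_stmt) [Nonempty V] (a b : ℕ) (ha : 0 < a)
    (hb : 0 < b) (src tgt : E → V)
    (hp : ∀ (p : ℕ) (π : V → Fin p), Function.Surjective π →
      a * p ≤ b * (univ.filter (fun e => π (src e) ≠ π (tgt e))).card + a) :
    ∃ F : E → ℤ, (∀ e, (a : ℤ) - b ≤ |F e| ∧ |F e| ≤ (a : ℤ) + b) ∧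
      ∀ v, ∑ e ∈ univ.filter (fun e => src e = v), F e =
        ∑ e ∈ univ.filter (fun e => tgt e = v), F e := by
  classical
  have hbR : (0 : ℝ) < b := by exact_mod_cast hb
  have haR : (0 : ℝ) < a := by exact_mod_cast ha
  refine flowR_of_good hRD src tgt a b hb ?_
  have hK : 0 < (a : ℝ) / b := by positivity
  obtain ⟨s0⟩ := (inferInstance : Nonempty V)
  refine goodR_contract hZO src tgt _ hK univ s0 (Finset.mem_univ _) ?_ ?_
  · intro p π hπ
    have h1 := hp p (fun v => π ⟨v, Finset.mem_univ v⟩) (fun i => by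
      obtain ⟨v, hv⟩ := hπ i
      exact ⟨v.1, hv⟩)
    have h2 : (univ.filter (fun e => π ⟨src e, Finset.mem_univ _⟩ ≠
        π ⟨tgt e, Finset.mem_univ _⟩)).card ≤
        (univ.filter (fun e => π (sS src tgt univ e) ≠ π (tS src tgt univ e))).card := by
      refine Finset.card_le_card_of_injOn
        (fun e => ⟨e, Finset.mem_univ _, Finset.mem_univ _⟩) ?_ ?_
      · intro e he
        simp only [Finset.coe_filter, Set.mem_ofPred_eq, Finset.mem_univ, true_and] at he ⊢
        exact he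
      · intro e _ e' _ h
        exact congrArg Subtype.val h
    have h3 : a * p ≤ b *
        (univ.filter (fun e => π (sS src tgt univ e) ≠ π (tS src tgt univ e))).card + a :=
      h1.trans (Nat.add_le_add_right (Nat.mul_le_mul_left b h2) a)
    have h4 : (a : ℝ) * p ≤ b *
        ((univ.filter (fun e => π (sS src tgt univ e) ≠ π (tS src tgt univ e))).card : ℝ) + a := by
      exact_mod_cast h3
    rw [div_mul_eq_mul_div, div_le_iff₀ hbR, add_mul, div_mul_cancel₀ _ hbR.ne']
    linarith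
  · refine ⟨fun _ => 0, fun e => by simp, fun v => ⟨0, ?_⟩⟩
    have h1 : ct (fun e => rh univ s0 (src e)) (fun e => rh univ s0 (tgt e)) {v} = 0 := by
      rw [ct]
      refine Finset.sum_eq_zero fun e _ => ?_
      simp only [rh, Finset.mem_univ, if_true]
      rw [if_neg]
      tauto
    rw [h1]
    simp [dv]

end Pool.Agent.helper11.CFL.OddCut
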