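import Pool.Agent.helper11.CFL.Spec

/-! Row cf:MN : conductances with leverage scores at most w + eps. -/

namespace Pool.Agent.helper11.CFL

open Finset Matrix

namespace MNH

theorem det_rank_one {V : Type} [Fintype V] [DecidableEq V] (A : Matrix V V ℝ)
    (hA : IsUnit A.det) (u v : V → ℝ) :
    (A + Matrix.vecMulVec u v).det = A.det * (1 + v ⬝ᵥ (A⁻¹ *ᵥ u)) := by
  rw [Matrix.vecMulVec_eq Unit, Matrix.det_add_replicateCol_mul_replicateRow hA]
  congr 1
  rw [Matrix.det_unique]
  simp only [Matrix.add_apply, Matrix.one_apply_eq]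
  congr 1
  rw [Matrix.mul_assoc]
  simp only [Matrix.mul_apply, replicateRow_apply, replicateCol_apply, dotProduct, mulVec]

theorem Mat_update {V E : Type} [Fintype V] [DecidableEq V] [Fintype E] [DecidableEq E]
    (src tgt : E → V) (c : E → ℝ) (e : E) (δ : ℝ) :
    Mat src tgt (Function.update c e ((1 - δ) * c e)) =
      Mat src tgt c + Matrix.vecMulVec ((-(δ * c e)) • inc src tgt e) (inc src tgt e) := by
  ext a b
  simp only [Mat, Matrix.add_apply, Matrix.vecMulVec_apply, Pi.smul_apply, smul_eq_mul]
  have h : ∑ x, Function.update c e ((1 - δ) * c e) x * inc src tgt x a * inc src tgt x b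
      = ∑ x, c x * inc src tgt x a * inc src tgt x b
        + -(δ * c e) * inc src tgt e a * inc src tgt e b := by
    rw [← Finset.add_sum_erase _ _ (Finset.mem_univ e),
      ← Finset.add_sum_erase (a := e) Finset.univ
        (fun x => c x * inc src tgt x a * inc src tgt x b) (Finset.mem_univ e)]
    have h2 : ∑ x ∈ Finset.univ.erase e,
        Function.update c e ((1 - δ) * c e) x * inc src tgt x a * inc src tgt x b
        = ∑ x ∈ Finset.univ.erase e, c x * inc src tgt x a * inc src tgt x b := by
      refine Finset.sum_congr rfl fun x hx => ?_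
      rw [Function.update_of_ne (Finset.ne_of_mem_erase hx)]
    rw [h2, Function.update_self]
    ring
  rw [h]
  ring

theorem cont_det {V E : Type} [Fintype V] [DecidableEq V] [Fintype E]
    (src tgt : E → V) : Continuous fun c : E → ℝ => (Mat src tgt c).det := by
  apply Continuous.matrix_det
  refine continuous_matrix fun i j => ?_
  simp only [Mat]
  fun_prop

end MNH

open MNH

theorem MN : MN_stmt := by
  intro V E _ _ _ _ _ src tgt w hw hPD hdet ε hε
  classical
  set F : (E → ℝ) → ℝ := fun c => Real.log (Mat src tgt c).det - ∑ e, (w e + ε) * Real.log (c e)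
    with hF
  have hdpos : ∀ c : E → ℝ, (∀ e, 0 < c e) → 0 < (Mat src tgt c).det := fun c hc =>
    (hPD c hc).det_pos
  -- lower bound
  have hlow : ∀ c : E → ℝ, (∀ e, 0 < c e) → (∀ e, c e ≤ 1) → ∀ e, -ε * Real.log (c e) ≤ F c := by
    intro c hc hc1 e
    have h1 : ∑ e, w e * Real.log (c e) ≤ Real.log (Mat src tgt c).det := by
      have h2 := hdet c hc hc1
      have h3 : Real.log (∏ e, (c e) ^ (w e)) = ∑ e, w e * Real.log (c e) := by
        rw [Real.log_prod (fun e _ => (Real.rpow_pos_of_pos (hc e) _).ne')]
        exact Finset.sum_congr rfl fun e _ => Real.log_rpow (hc e) _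
      rw [← h3]
      exact Real.log_le_log (Finset.prod_pos fun e _ => Real.rpow_pos_of_pos (hc e) _) h2
    have h4 : F c = Real.log (Mat src tgt c).det - ∑ e, w e * Real.log (c e)
        + ∑ e, -ε * Real.log (c e) := by
      simp only [hF]
      have : ∑ e, (w e + ε) * Real.log (c e)
          = ∑ e, w e * Real.log (c e) + -∑ e, -ε * Real.log (c e) := by
        rw [← Finset.sum_neg_distrib, ← Finset.sum_add_distrib]
        exact Finset.sum_congr rfl fun e _ => by ring
      rw [this]; ring
    have h5 : -ε * Real.log (c e) ≤ ∑ e, -ε * Real.log (c e) := by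
      refine Finset.single_le_sum (f := fun e => -ε * Real.log (c e)) (fun i _ => ?_)
        (Finset.mem_univ e)
      have := Real.log_nonpos (hc i).le (hc1 i)
      nlinarith
    rw [h4]; linarith
  set K : ℝ := F (fun _ => 1) with hK
  have hK0 : ∀ e : E, 0 ≤ K := fun e => by
    have := hlow (fun _ => 1) (fun _ => one_pos) (fun _ => le_rfl) e
    simpa using this
  set η : ℝ := Real.exp (-(|K| / ε)) with hη
  have hη0 : 0 < η := Real.exp_pos _
  have hη1 : η ≤ 1 := by
    rw [hη, Real.exp_le_one_iff]
    have : 0 ≤ |K| / ε := by positivity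
    linarith
  have hcomp : IsCompact (Set.Icc (fun _ : E => η) (fun _ => (1 : ℝ))) := isCompact_Icc
  have hone : (fun _ : E => (1 : ℝ)) ∈ Set.Icc (fun _ : E => η) (fun _ => (1 : ℝ)) :=
    ⟨fun _ => hη1, le_rfl⟩
  have hcont : ContinuousOn F (Set.Icc (fun _ : E => η) (fun _ => (1 : ℝ))) := by
    refine ContinuousOn.sub ?_ ?_
    · refine ContinuousOn.log (cont_det src tgt).continuousOn fun c hc => ?_
      exact (hdpos c fun e => lt_of_lt_of_le hη0 (hc.1 e)).ne'
    · refine continuousOn_finsetSum _ fun e _ => ?_
      refine ContinuousOn.mul continuousOn_const ?_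
      refine ContinuousOn.log (continuous_apply e).continuousOn fun c hc => ?_
      exact (lt_of_lt_of_le hη0 (hc.1 e)).ne'
  obtain ⟨c, hcmem, hcmin⟩ := hcomp.exists_isMinOn ⟨_, hone⟩ hcont
  have hc0 : ∀ e, 0 < c e := fun e => lt_of_lt_of_le hη0 (hcmem.1 e)
  have hc1 : ∀ e, c e ≤ 1 := fun e => hcmem.2 e
  have hglob : ∀ c' : E → ℝ, (∀ e, 0 < c' e) → (∀ e, c' e ≤ 1) → F c ≤ F c' := by
    intro c' h0 h1
    by_cases hmem : ∀ e, η ≤ c' e
    · exact hcmin (show c' ∈ Set.Icc (fun _ : E => η) (fun _ => (1 : ℝ)) from
        ⟨fun e => hmem e, fun e => h1 e⟩)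
    · push Not at hmem
      obtain ⟨e, he⟩ := hmem
      have h2 : F c ≤ K := hcmin hone
      have h3 := hlow c' h0 h1 e
      have h4 : Real.log (c' e) < -(|K| / ε) := by
        rw [← Real.log_exp (-(|K| / ε))]
        exact Real.log_lt_log (h0 e) he
      have h5 : |K| ≤ -ε * Real.log (c' e) := by
        have : |K| = ε * (|K| / ε) := by field_simp
        nlinarith
      linarith [le_abs_self K]
  refine ⟨c, hc0, fun e => ?_⟩
  -- the variation
  have hkey : ∀ δ : ℝ, 0 < δ → δ < 1 → lev src tgt c e * (1 - δ) ≤ w e + ε := by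
    intro δ hδ0 hδ1
    set c' := Function.update c e ((1 - δ) * c e) with hc'
    have h0 : ∀ i, 0 < c' i := by
      intro i
      by_cases hi : i = e
      · subst hi; rw [hc', Function.update_self]
        exact mul_pos (by linarith) (hc0 _)
      · rw [hc', Function.update_of_ne hi]; exact hc0 i
    have h1 : ∀ i, c' i ≤ 1 := by
      intro i
      by_cases hi : i = e
      · subst hi; rw [hc', Function.update_self]
        have := hc0 i; have := hc1 i
        nlinarith
      · rw [hc', Function.update_of_ne hi]; exact hc1 i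
    have h2 := hglob c' h0 h1
    have hd : (Mat src tgt c').det = (Mat src tgt c).det * (1 - δ * lev src tgt c e) := by
      rw [hc', Mat_update, det_rank_one _ (isUnit_iff_ne_zero.mpr (hdpos c hc0).ne')]
      congr 1
      rw [Matrix.mulVec_smul, dotProduct_smul, lev, smul_eq_mul]
      ring
    have hpos' := hdpos c' h0
    have hpos := hdpos c hc0
    have hfac : 0 < 1 - δ * lev src tgt c e := by
      rw [hd] at hpos'
      exact (pos_iff_pos_of_mul_pos hpos').mp hpos
    have hlogd : Real.log (Mat src tgt c').det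
        = Real.log (Mat src tgt c).det + Real.log (1 - δ * lev src tgt c e) := by
      rw [hd, Real.log_mul hpos.ne' hfac.ne']
    have hsum : ∑ i, (w i + ε) * Real.log (c' i)
        = ∑ i, (w i + ε) * Real.log (c i) + (w e + ε) * Real.log (1 - δ) := by
      rw [← Finset.add_sum_erase _ _ (Finset.mem_univ e),
        ← Finset.add_sum_erase (a := e) Finset.univ
          (fun i => (w i + ε) * Real.log (c i)) (Finset.mem_univ e)]
      have h3 : ∑ i ∈ Finset.univ.erase e, (w i + ε) * Real.log (c' i)
          = ∑ i ∈ Finset.univ.erase e, (w i + ε) * Real.log (c i) := by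
        refine Finset.sum_congr rfl fun i hi => ?_
        rw [hc', Function.update_of_ne (Finset.ne_of_mem_erase hi)]
      rw [h3, hc', Function.update_self, Real.log_mul (by linarith) (hc0 e).ne']
      ring
    have h4 : (w e + ε) * Real.log (1 - δ) ≤ Real.log (1 - δ * lev src tgt c e) := by
      simp only [hF] at h2
      rw [hlogd, hsum] at h2
      linarith
    have h5 : Real.log (1 - δ * lev src tgt c e) ≤ -(δ * lev src tgt c e) := by
      have := Real.log_le_sub_one_of_pos hfac
      linarith
    have h6 : 1 - (1 - δ)⁻¹ ≤ Real.log (1 - δ) := Real.one_sub_inv_le_log_of_pos (by linarith)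
    have h7 : 0 < w e + ε := by linarith [hw e]
    have h8 : (w e + ε) * (1 - (1 - δ)⁻¹) ≤ -(δ * lev src tgt c e) :=
      le_trans (mul_le_mul_of_nonneg_left h6 h7.le) (h4.trans h5)
    have h9 : 0 < 1 - δ := by linarith
    have h10 : (w e + ε) * (1 - (1 - δ)⁻¹) * (1 - δ) = -(w e + ε) * δ := by
      field_simp
      ring
    have h11 := mul_le_mul_of_nonneg_right h8 h9.le
    rw [h10] at h11
    have h12 : δ * (lev src tgt c e * (1 - δ)) ≤ δ * (w e + ε) := by linarith
    exact le_of_mul_le_mul_left h12 hδ0
  by_contra hcon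
  push Not at hcon
  have hlpos : 0 < lev src tgt c e := lt_trans (by linarith [hw e]) hcon
  have hwe : 0 < w e + ε := by linarith [hw e]
  have h := hkey ((lev src tgt c e - (w e + ε)) / (2 * lev src tgt c e))
    (div_pos (by linarith) (by linarith)) (by rw [div_lt_one (by linarith)]; linarith)
  have h2 : lev src tgt c e * (1 - (lev src tgt c e - (w e + ε)) / (2 * lev src tgt c e))
      = (lev src tgt c e + (w e + ε)) / 2 := by
    field_simp
    ring
  rw [h2] at h
  linarith

end Pool.Agent.helper11.CFL
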