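import Pool.Agent.helper11.CFL.Spec

/-! Row cf:PD : positive definiteness of the Laplacian plus the all ones matrix. -/

namespace Pool.Agent.helper11.CFL

open Finset Matrix

namespace PDH62

theorem quad {V E : Type} [Fintype V] [DecidableEq V] [Fintype E]
    (src tgt : E → V) (c : E → ℝ) (x : V → ℝ) :
    x ⬝ᵥ (Mat src tgt c *ᵥ x) = ∑ e, c e * (x (src e) - x (tgt e)) ^ 2 + (∑ v, x v) ^ 2 := by
  have h1 : ∀ e, ∑ v, inc src tgt e v * x v = x (src e) - x (tgt e) := by
    intro e
    simp [inc, sub_mul, Finset.sum_sub_distrib]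
  have h2 : ∀ u, (Mat src tgt c *ᵥ x) u
      = ∑ e, c e * inc src tgt e u * (x (src e) - x (tgt e)) + ∑ v, x v := by
    intro u
    simp only [mulVec, dotProduct, Mat, add_mul, one_mul, Finset.sum_add_distrib]
    congr 1
    simp only [Finset.sum_mul]
    rw [Finset.sum_comm]
    refine Finset.sum_congr rfl fun e _ => ?_
    rw [← h1 e, Finset.mul_sum]
    exact Finset.sum_congr rfl fun v _ => by ring
  rw [dotProduct]
  simp only [h2, mul_add, Finset.sum_add_distrib]
  congr 1
  · simp only [Finset.mul_sum]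
    rw [Finset.sum_comm]
    refine Finset.sum_congr rfl fun e _ => ?_
    have : c e * (x (src e) - x (tgt e)) ^ 2
        = c e * (x (src e) - x (tgt e)) * ∑ v, inc src tgt e v * x v := by
      rw [h1 e]; ring
    rw [this, Finset.mul_sum]
    exact Finset.sum_congr rfl fun v _ => by ring
  · rw [← Finset.sum_mul]; ring

end PDH62

open PDH62

theorem PD : PD_stmt := by
  intro V E _ _ _ _ _ src tgt T hT c hc
  rw [Matrix.posDef_iff_dotProduct_mulVec]
  refine ⟨?_, fun x hx => ?_⟩
  · ext u v
    simp only [Matrix.conjTranspose_apply, Mat, star_trivial]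
    congr 1
    exact Finset.sum_congr rfl fun e _ => by ring
  · rw [star_trivial, quad]
    have h1 : 0 ≤ ∑ e, c e * (x (src e) - x (tgt e)) ^ 2 :=
      Finset.sum_nonneg fun e _ => mul_nonneg (hc e).le (sq_nonneg _)
    rcases h1.eq_or_lt with h0 | h0
    · have h2 : ∀ e, x (src e) = x (tgt e) := by
        intro e
        have h3 := (Finset.sum_eq_zero_iff_of_nonneg fun e _ =>
          mul_nonneg (hc e).le (sq_nonneg (x (src e) - x (tgt e)))).mp h0.symm e
          (Finset.mem_univ e)
        rcases mul_eq_zero.mp h3 with h4 | h4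
        · exact absurd h4 (hc e).ne'
        · exact sub_eq_zero.mp (pow_eq_zero_iff two_ne_zero |>.mp h4)
      have h3 : ∀ u v, x u = x v := hT.2 x fun e _ => h2 e
      obtain ⟨u, hu⟩ := Function.ne_iff.mp hx
      have h4 : ∑ v, x v = Fintype.card V * x u := by
        rw [Finset.sum_congr rfl fun v _ => h3 v u]
        simp
      rw [← h0, zero_add, h4]
      have h5 : (Fintype.card V : ℝ) ≠ 0 := by exact_mod_cast Fintype.card_ne_zero
      exact sq_pos_of_ne_zero (mul_ne_zero h5 hu)
    · have := sq_nonneg (∑ v, x v)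
      linarith

end Pool.Agent.helper11.CFL
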