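import Pool.Agent.helper11.CFL.Spec

/-! Row cf:RD : rounding of a real flow with integer divergence. -/

namespace Pool.Agent.helper11.CFL

open Finset Matrix

namespace RDH

theorem kernel {V E : Type} [Fintype V] [DecidableEq V] [Fintype E] [DecidableEq E]
    (src tgt : E → V) (g : E → ℝ) (hg : ∀ v, ∃ a : ℤ, dv src tgt g v = a)
    (F : Finset E) (hF : ∀ e, e ∈ F ↔ ∀ a : ℤ, g e ≠ a) (hne : F.Nonempty) :
    ∃ h : E → ℝ, (∀ e, e ∉ F → h e = 0) ∧ (∃ e, h e ≠ 0) ∧ ∀ v, dv src tgt h v = 0 := by
  classical
  by_cases hloop : ∃ e ∈ F, src e = tgt e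
  · obtain ⟨e, heF, he⟩ := hloop
    refine ⟨fun x => if x = e then 1 else 0, fun x hx => ?_, ⟨e, by simp⟩, fun v => ?_⟩
    · show (if x = e then (1 : ℝ) else 0) = 0
      rw [if_neg]; rintro rfl; exact hx heF
    · simp [dv, inc, he]
  push Not at hloop
  set W : Finset V := F.image src ∪ F.image tgt with hW
  have hsW : ∀ e ∈ F, src e ∈ W := fun e he =>
    Finset.mem_union_left _ (Finset.mem_image_of_mem _ he)
  have htW : ∀ e ∈ F, tgt e ∈ W := fun e he =>
    Finset.mem_union_right _ (Finset.mem_image_of_mem _ he)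
  -- degrees
  have hdeg : ∀ v ∈ W, 2 ≤ (F.filter (fun e => src e = v ∨ tgt e = v)).card := by
    intro v hv
    by_contra hlt
    push Not at hlt
    have hex : ∃ e0, e0 ∈ F.filter (fun e => src e = v ∨ tgt e = v) := by
      rw [hW, Finset.mem_union, Finset.mem_image, Finset.mem_image] at hv
      rcases hv with ⟨e, he, hev⟩ | ⟨e, he, hev⟩
      · exact ⟨e, Finset.mem_filter.mpr ⟨he, Or.inl hev⟩⟩
      · exact ⟨e, Finset.mem_filter.mpr ⟨he, Or.inr hev⟩⟩
    obtain ⟨e0, he0⟩ := hex
    have honly : ∀ e ∈ F.filter (fun e => src e = v ∨ tgt e = v), e = e0 := by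
      intro e he
      exact Finset.card_le_one.mp (by omega) e he e0 he0
    rw [Finset.mem_filter] at he0
    obtain ⟨a, ha⟩ := hg v
    have hsplit : dv src tgt g v = g e0 * inc src tgt e0 v
        + ∑ e ∈ univ.erase e0, g e * inc src tgt e v := by
      rw [dv, ← Finset.add_sum_erase _ _ (Finset.mem_univ e0)]
    have hint : ∑ e ∈ univ.erase e0, g e * inc src tgt e v ∈ (Int.castAddHom ℝ).range := by
      refine AddSubgroup.sum_mem _ fun e he => ?_
      have hee : e ≠ e0 := Finset.ne_of_mem_erase he
      by_cases heF : e ∈ F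
      · have h1 : ¬ (src e = v ∨ tgt e = v) := fun h =>
          hee (honly e (Finset.mem_filter.mpr ⟨heF, h⟩))
        push Not at h1
        have h2 : inc src tgt e v = 0 := by simp [inc, h1.1, h1.2]
        rw [h2, mul_zero]
        exact AddSubgroup.zero_mem _
      · have h1 : ∃ b : ℤ, g e = b := by
          by_contra hcon
          push Not at hcon
          exact heF ((hF e).mpr hcon)
        obtain ⟨b, hb⟩ := h1
        refine ⟨b * ((if src e = v then 1 else 0) - (if tgt e = v then 1 else 0)), ?_⟩
        rw [hb]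
        simp [inc]
    obtain ⟨b, hb⟩ := hint
    have hb' : ∑ e ∈ univ.erase e0, g e * inc src tgt e v = (b : ℝ) := by
      rw [← hb]; rfl
    have hnl := hloop e0 he0.1
    have hg0 : ∀ z : ℤ, g e0 ≠ z := (hF e0).mp he0.1
    rw [hsplit, hb'] at ha
    rcases he0.2 with h1 | h1
    · have h2 : tgt e0 ≠ v := fun h => hnl (h1.trans h.symm)
      have h3 : inc src tgt e0 v = 1 := by simp [inc, h1, h2]
      rw [h3] at ha
      exact hg0 (a - b) (by push_cast; linarith)
    · have h2 : src e0 ≠ v := fun h => hnl (h.trans h1.symm)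
      have h3 : inc src tgt e0 v = -1 := by simp [inc, h1, h2]
      rw [h3] at ha
      exact hg0 (b - a) (by push_cast; linarith)
  have hcard : W.card ≤ F.card := by
    have h1 : ∑ v ∈ W, (F.filter (fun e => src e = v ∨ tgt e = v)).card
        = ∑ e ∈ F, (W.filter (fun v => src e = v ∨ tgt e = v)).card := by
      simp only [Finset.card_filter]
      exact Finset.sum_comm
    have h2 : ∑ e ∈ F, (W.filter (fun v => src e = v ∨ tgt e = v)).card ≤ ∑ _e ∈ F, 2 := by
      refine Finset.sum_le_sum fun e _ => ?_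
      refine le_trans (Finset.card_le_card (t := {src e, tgt e}) ?_) Finset.card_le_two
      intro v hv
      rw [Finset.mem_filter] at hv
      rw [Finset.mem_insert, Finset.mem_singleton]
      rcases hv.2 with h | h
      · exact Or.inl h.symm
      · exact Or.inr h.symm
    have h3 : ∑ _v ∈ W, 2 ≤ ∑ v ∈ W, (F.filter (fun e => src e = v ∨ tgt e = v)).card :=
      Finset.sum_le_sum hdeg
    rw [Finset.sum_const, smul_eq_mul] at h2 h3
    omega
  -- the linear map
  let L : (F → ℝ) →ₗ[ℝ] (W → ℝ) :=
    { toFun := fun x w => ∑ e : F, x e * inc src tgt (e : E) (w : V)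
      map_add' := by
        intro x y; funext w
        simp only [Pi.add_apply, add_mul, Finset.sum_add_distrib]
      map_smul' := by
        intro r x; funext w
        simp only [Pi.smul_apply, smul_eq_mul, RingHom.id_apply, Finset.mul_sum, mul_assoc] }
  have hLdef : ∀ x w, L x w = ∑ e : F, x e * inc src tgt (e : E) (w : V) := fun _ _ => rfl
  have hninj : ¬ Function.Injective L := by
    intro hinj
    have h1 : Module.finrank ℝ (F → ℝ) ≤ Module.finrank ℝ (W → ℝ) :=
      LinearMap.finrank_le_finrank_of_injective hinj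
    rw [Module.finrank_fintype_fun_eq_card, Module.finrank_fintype_fun_eq_card,
      Fintype.card_coe, Fintype.card_coe] at h1
    have heq : Module.finrank ℝ (F → ℝ) = Module.finrank ℝ (W → ℝ) := by
      rw [Module.finrank_fintype_fun_eq_card, Module.finrank_fintype_fun_eq_card,
        Fintype.card_coe, Fintype.card_coe]
      omega
    have hsurj : Function.Surjective L :=
      (LinearMap.injective_iff_surjective_of_finrank_eq_finrank heq).mp hinj
    obtain ⟨e1, he1⟩ := hne
    obtain ⟨x, hx⟩ := hsurj (fun w => if w = ⟨src e1, hsW e1 he1⟩ then 1 else 0)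
    have h2 : ∑ w : W, L x w = 1 := by rw [hx]; simp
    have h3 : ∑ w : W, L x w = 0 := by
      simp only [hLdef]
      rw [Finset.sum_comm]
      refine Finset.sum_eq_zero fun e _ => ?_
      rw [← Finset.mul_sum]
      have h4 : ∑ w : W, inc src tgt (e : E) (w : V) = 0 := by
        have h5 : ∑ w : W, inc src tgt (e : E) (w : V) = ∑ w ∈ W, inc src tgt (e : E) w :=
          Finset.sum_coe_sort W (fun w => inc src tgt (e : E) w)
        rw [h5]
        simp only [inc, Finset.sum_sub_distrib, Finset.sum_ite_eq, hsW e e.2, htW e e.2,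
          if_true, sub_self]
      rw [h4, mul_zero]
    rw [h3] at h2
    exact zero_ne_one h2
  have hker : ∃ x : F → ℝ, x ≠ 0 ∧ L x = 0 := by
    by_contra hcon
    push Not at hcon
    exact hninj ((injective_iff_map_eq_zero L).mpr fun x hx => by
      by_contra hx0
      exact hcon x hx0 hx)
  obtain ⟨x, hx0, hLx⟩ := hker
  obtain ⟨e1, he1⟩ : ∃ e, x e ≠ 0 := Function.ne_iff.mp hx0
  refine ⟨fun e => if he : e ∈ F then x ⟨e, he⟩ else 0, fun e he => by simp [he],
    ⟨e1, by simpa using he1⟩, fun v => ?_⟩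
  have h1 : dv src tgt (fun e => if he : e ∈ F then x ⟨e, he⟩ else 0) v
      = ∑ e : F, x e * inc src tgt (e : E) v := by
    rw [dv]
    have h2 : ∑ e, (if he : e ∈ F then x ⟨e, he⟩ else 0) * inc src tgt e v
        = ∑ e ∈ F, (if he : e ∈ F then x ⟨e, he⟩ else 0) * inc src tgt e v := by
      refine (Finset.sum_subset (Finset.subset_univ F) fun e _ he => ?_).symm
      simp [he]
    rw [h2, ← Finset.sum_coe_sort F]
    refine Finset.sum_congr rfl fun e _ => ?_
    simp
  rw [h1]
  by_cases hv : v ∈ W
  · have := congrFun hLx ⟨v, hv⟩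
    rw [hLdef] at this
    simpa using this
  · refine Finset.sum_eq_zero fun e _ => ?_
    have h2 : src (e : E) ≠ v := fun h => hv (h ▸ hsW e e.2)
    have h3 : tgt (e : E) ≠ v := fun h => hv (h ▸ htW e e.2)
    simp [inc, h2, h3]

theorem dv_add_smul {V E : Type} [DecidableEq V] [Fintype E]
    (src tgt : E → V) (g h : E → ℝ) (t : ℝ) (v : V) :
    dv src tgt (fun e => g e + t * h e) v = dv src tgt g v + t * dv src tgt h v := by
  simp only [dv, Finset.mul_sum, ← Finset.sum_add_distrib]
  exact Finset.sum_congr rfl fun e _ => by ring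

end RDH

open RDH

theorem RD : RD_stmt := by
  intro V E _ _ _ _ src tgt
  classical
  have main : ∀ (n : ℕ) (g : E → ℝ), (univ.filter (fun e => ∀ a : ℤ, g e ≠ a)).card = n →
      (∀ v, ∃ a : ℤ, dv src tgt g v = a) →
      ∃ g' : E → ℤ, (∀ e, ⌊g e⌋ ≤ g' e ∧ g' e ≤ ⌈g e⌉) ∧
        ∀ v, dv src tgt (fun e => (g' e : ℝ)) v = dv src tgt g v := by
    intro n
    induction n using Nat.strong_induction_on with
    | _ n ih =>
    intro g hn hg
    by_cases h0 : (univ.filter (fun e => ∀ a : ℤ, g e ≠ a)) = ∅
    · have h1 : ∀ e, ∃ a : ℤ, g e = a := by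
        intro e
        by_contra hcon
        push Not at hcon
        have : e ∈ (univ.filter (fun e => ∀ a : ℤ, g e ≠ a)) :=
          Finset.mem_filter.mpr ⟨Finset.mem_univ _, hcon⟩
        rw [h0] at this
        simp at this
      choose G hG using h1
      refine ⟨G, fun e => ?_, fun v => ?_⟩
      · rw [hG e]; simp
      · have : (fun e => (G e : ℝ)) = g := funext fun e => (hG e).symm
        rw [this]
    · set F := univ.filter (fun e => ∀ a : ℤ, g e ≠ a) with hFdef
      have hF : ∀ e, e ∈ F ↔ ∀ a : ℤ, g e ≠ a := by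
        intro e; simp [hFdef]
      obtain ⟨h, hsupp, ⟨e1, he1⟩, hdv⟩ :=
        kernel src tgt g hg F hF (Finset.nonempty_iff_ne_empty.mpr h0)
      -- the first time
      let T : E → ℝ := fun e => ((if 0 < h e then (⌈g e⌉ : ℝ) else (⌊g e⌋ : ℝ)) - g e) / h e
      have hS : (univ.filter (fun e => h e ≠ 0)).Nonempty :=
        ⟨e1, Finset.mem_filter.mpr ⟨Finset.mem_univ _, he1⟩⟩
      obtain ⟨e0, he0, hmin⟩ := Finset.exists_min_image _ T hS
      rw [Finset.mem_filter] at he0
      have hT0 : ∀ e, h e ≠ 0 → 0 ≤ T e := by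
        intro e he
        simp only [T]
        split_ifs with hp
        · exact div_nonneg (sub_nonneg.mpr (Int.le_ceil _)) hp.le
        · exact div_nonneg_of_nonpos (sub_nonpos.mpr (Int.floor_le _)) (not_lt.mp hp)
      set t := T e0 with ht
      have ht0 : 0 ≤ t := hT0 e0 he0.2
      have hbox : ∀ e, (⌊g e⌋ : ℝ) ≤ g e + t * h e ∧ g e + t * h e ≤ ⌈g e⌉ := by
        intro e
        by_cases he : h e = 0
        · rw [he, mul_zero, add_zero]; exact ⟨Int.floor_le _, Int.le_ceil _⟩
        · have h1 : t ≤ T e := hmin e (Finset.mem_filter.mpr ⟨Finset.mem_univ _, he⟩)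
          rcases lt_or_gt_of_ne he with hneg | hpos
          · have h2 : T e = ((⌊g e⌋ : ℝ) - g e) / h e := by
              simp only [T]; rw [if_neg (not_lt.mpr hneg.le)]
            rw [h2, le_div_iff_of_neg hneg] at h1
            have h3 : t * h e ≤ 0 := mul_nonpos_of_nonneg_of_nonpos ht0 hneg.le
            exact ⟨by linarith, by linarith [Int.le_ceil (g e)]⟩
          · have h2 : T e = ((⌈g e⌉ : ℝ) - g e) / h e := by
              simp only [T]; rw [if_pos hpos]
            rw [h2, le_div_iff₀ hpos] at h1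
            have h3 : 0 ≤ t * h e := mul_nonneg ht0 hpos.le
            exact ⟨by linarith [Int.floor_le (g e)], by linarith⟩
      have hint0 : ∃ a : ℤ, g e0 + t * h e0 = a := by
        have h1 : t * h e0 = (if 0 < h e0 then (⌈g e0⌉ : ℝ) else (⌊g e0⌋ : ℝ)) - g e0 := by
          rw [ht]
          exact div_mul_cancel₀ _ he0.2
        rw [h1]
        split_ifs
        · exact ⟨⌈g e0⌉, by ring⟩
        · exact ⟨⌊g e0⌋, by ring⟩
      set g1 : E → ℝ := fun e => g e + t * h e with hg1
      have hdv1 : ∀ v, dv src tgt g1 v = dv src tgt g v := by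
        intro v
        rw [hg1, dv_add_smul, hdv v, mul_zero, add_zero]
      have hlt : (univ.filter (fun e => ∀ a : ℤ, g1 e ≠ a)).card < n := by
        rw [← hn]
        refine Finset.card_lt_card ?_
        rw [Finset.ssubset_iff_of_subset]
        · refine ⟨e0, ?_, ?_⟩
          · by_contra hcon
            exact he0.2 (hsupp e0 hcon)
          · rw [Finset.mem_filter]
            rintro ⟨_, h2⟩
            obtain ⟨a, ha⟩ := hint0
            exact h2 a ha
        · intro e he
          by_contra hcon
          rw [Finset.mem_filter] at he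
          have h2 : h e = 0 := hsupp e hcon
          have h3 : g1 e = g e := by simp [hg1, h2]
          rw [h3] at he
          exact hcon ((hF e).mpr he.2)
      obtain ⟨g', hb, hd⟩ := ih _ hlt g1 rfl (fun v => by rw [hdv1 v]; exact hg v)
      refine ⟨g', fun e => ⟨?_, ?_⟩, fun v => by rw [hd v, hdv1 v]⟩
      · refine le_trans ?_ (hb e).1
        exact Int.le_floor.mpr (hbox e).1
      · refine le_trans (hb e).2 ?_
        exact Int.ceil_le.mpr (hbox e).2
  intro g hg
  exact main _ g rfl hg

end Pool.Agent.helper11.CFL
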