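import Pool.Agent.helper62.CFL.Cut

/-! The lifting lemma with an additional hyperedge `A` of weight two, and minimal tight sets. -/

namespace Pool.Agent.helper11.CFL.OddCut

open Finset

variable {V E : Type} [Fintype V] [DecidableEq V] [Fintype E] [DecidableEq E]

/-- `X` splits `A`. -/
def hb (A X : Finset V) : ℕ := if (A ∩ X).Nonempty ∧ (A \ X).Nonempty then 1 else 0

omit [Fintype V] in
theorem hb_le_one (A X : Finset V) : hb A X ≤ 1 := by unfold hb; split_ifs <;> simp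

omit [Fintype V] in
theorem hb_submod (A X Y : Finset V) : hb A (X ∪ Y) + hb A (X ∩ Y) ≤ hb A X + hb A Y := by
  unfold hb
  by_cases h1 : (A ∩ X).Nonempty ∧ (A \ X).Nonempty
  · by_cases h2 : (A ∩ Y).Nonempty ∧ (A \ Y).Nonempty
    · rw [if_pos h1, if_pos h2]
      split_ifs <;> simp
    · rw [if_pos h1, if_neg h2]
      by_cases h3 : (A ∩ (X ∪ Y)).Nonempty ∧ (A \ (X ∪ Y)).Nonempty
      · have h4 : ¬ ((A ∩ (X ∩ Y)).Nonempty ∧ (A \ (X ∩ Y)).Nonempty) := by
          rintro ⟨⟨a, ha⟩, _⟩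
          obtain ⟨b, hb⟩ := h3.2
          apply h2
          simp only [Finset.mem_inter, Finset.mem_sdiff, Finset.mem_union, not_or] at ha hb
          exact ⟨⟨a, Finset.mem_inter.mpr ⟨ha.1, ha.2.2⟩⟩,
            ⟨b, Finset.mem_sdiff.mpr ⟨hb.1, hb.2.2⟩⟩⟩
        rw [if_pos h3, if_neg h4]
      · rw [if_neg h3]
        split_ifs <;> simp
  · by_cases h2 : (A ∩ Y).Nonempty ∧ (A \ Y).Nonempty
    · rw [if_neg h1, if_pos h2]
      by_cases h3 : (A ∩ (X ∪ Y)).Nonempty ∧ (A \ (X ∪ Y)).Nonempty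
      · have h4 : ¬ ((A ∩ (X ∩ Y)).Nonempty ∧ (A \ (X ∩ Y)).Nonempty) := by
          rintro ⟨⟨a, ha⟩, _⟩
          obtain ⟨b, hb⟩ := h3.2
          apply h1
          simp only [Finset.mem_inter, Finset.mem_sdiff, Finset.mem_union, not_or] at ha hb
          exact ⟨⟨a, Finset.mem_inter.mpr ⟨ha.1, ha.2.1⟩⟩,
            ⟨b, Finset.mem_sdiff.mpr ⟨hb.1, hb.2.1⟩⟩⟩
        rw [if_pos h3, if_neg h4]
      · rw [if_neg h3]
        split_ifs <;> simp
    · rw [if_neg h1, if_neg h2]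
      have h3 : ¬ ((A ∩ (X ∪ Y)).Nonempty ∧ (A \ (X ∪ Y)).Nonempty) := by
        rintro ⟨⟨a, ha⟩, ⟨b, hb⟩⟩
        simp only [Finset.mem_inter, Finset.mem_sdiff, Finset.mem_union, not_or] at ha hb
        rcases ha.2 with h | h
        · exact h1 ⟨⟨a, Finset.mem_inter.mpr ⟨ha.1, h⟩⟩, ⟨b, Finset.mem_sdiff.mpr ⟨hb.1, hb.2.1⟩⟩⟩
        · exact h2 ⟨⟨a, Finset.mem_inter.mpr ⟨ha.1, h⟩⟩, ⟨b, Finset.mem_sdiff.mpr ⟨hb.1, hb.2.2⟩⟩⟩
      have h4 : ¬ ((A ∩ (X ∩ Y)).Nonempty ∧ (A \ (X ∩ Y)).Nonempty) := by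
        rintro ⟨⟨a, ha⟩, ⟨b, hb⟩⟩
        simp only [Finset.mem_inter, Finset.mem_sdiff, not_and] at ha hb
        by_cases h : b ∈ X
        · exact h2 ⟨⟨a, Finset.mem_inter.mpr ⟨ha.1, ha.2.2⟩⟩,
            ⟨b, Finset.mem_sdiff.mpr ⟨hb.1, hb.2 h⟩⟩⟩
        · exact h1 ⟨⟨a, Finset.mem_inter.mpr ⟨ha.1, ha.2.1⟩⟩, ⟨b, Finset.mem_sdiff.mpr ⟨hb.1, h⟩⟩⟩
      rw [if_neg h3, if_neg h4]

theorem hb_compl (A X : Finset V) : hb A Xᶜ = hb A X := by
  unfold hb
  have h1 : A ∩ Xᶜ = A \ X := by ext a; simp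
  have h2 : A \ Xᶜ = A ∩ X := by ext a; simp
  rw [h1, h2]
  by_cases c1 : (A ∩ X).Nonempty <;> by_cases c2 : (A \ X).Nonempty <;> simp [c1, c2]

theorem hb_posimod (A X Y : Finset V) : hb A (X \ Y) + hb A (Y \ X) ≤ hb A X + hb A Y := by
  have h := hb_submod A X Yᶜ
  have h1 : X ∩ Yᶜ = X \ Y := by ext a; simp
  have h2 : X ∪ Yᶜ = (Y \ X)ᶜ := by ext a; simp; tauto
  rw [h1, h2, hb_compl, hb_compl] at h
  omega

omit [Fintype V] in
theorem hb_insert {A : Finset V} {v : V} (hv : v ∉ A) (M : Finset V) :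
    hb A (insert v M) = hb A M := by
  unfold hb
  have h1 : A ∩ insert v M = A ∩ M := by
    ext a
    simp only [Finset.mem_inter, Finset.mem_insert]
    constructor
    · rintro ⟨h, rfl | h'⟩
      · exact absurd h hv
      · exact ⟨h, h'⟩
    · rintro ⟨h, h'⟩; exact ⟨h, Or.inr h'⟩
  have h2 : A \ insert v M = A \ M := by
    ext a
    simp only [Finset.mem_sdiff, Finset.mem_insert, not_or]
    constructor
    · rintro ⟨h, _, h'⟩; exact ⟨h, h'⟩
    · rintro ⟨h, h'⟩; exact ⟨h, fun e => hv (e ▸ h), h'⟩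
  rw [h1, h2]

omit [Fintype V] [DecidableEq E] in
theorem ct_posimod0 (src tgt : E → V) (X Y : Finset V) :
    ct src tgt (X \ Y) + ct src tgt (Y \ X) ≤ ct src tgt X + ct src tgt Y := by
  simp only [ct, ← Finset.sum_add_distrib]
  refine Finset.sum_le_sum fun e _ => ?_
  by_cases h1 : src e ∈ X <;> by_cases h2 : tgt e ∈ X <;> by_cases h3 : src e ∈ Y <;>
    by_cases h4 : tgt e ∈ Y <;> simp [h1, h2, h3, h4]

omit [Fintype V] [DecidableEq E] in
/-- parity alternatives for two odd sets -/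
theorem odd_cases (src tgt : E → V) (X Y : Finset V) (hX : Odd (ct src tgt X))
    (hY : Odd (ct src tgt Y)) :
    (Odd (ct src tgt (X ∩ Y)) ∧ Odd (ct src tgt (X ∪ Y))) ∨
      (Odd (ct src tgt (X \ Y)) ∧ Odd (ct src tgt (Y \ X))) := by
  have p1 := pr_eq src tgt X
  have p2 := pr_eq src tgt Y
  have p3 := pr_eq src tgt (X ∪ Y)
  have p4 := pr_eq src tgt (X ∩ Y)
  have p5 := pr_eq src tgt (X \ Y)
  have p6 := pr_eq src tgt (Y \ X)
  have q1 := pr_union_inter src tgt X Y
  have q2 := pr_sdiff src tgt X Y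
  have q3 := pr_sdiff src tgt Y X
  rw [Finset.inter_comm Y X] at q3
  simp only [Nat.odd_iff] at hX hY ⊢
  omega

/-- the lifting lemma with a hyperedge -/
theorem lift_exists2 (src tgt : E → V) (A : Finset V) (l : ℕ) (hl : Odd l)
    (hodd : ∀ S : Finset V, Odd (ct src tgt S) → l ≤ ct src tgt S + 2 * hb A S)
    (v : V) (hvA : v ∉ A) (hev : Even (ct src tgt {v})) (hpos : 0 < ct src tgt {v}) :
    ∃ e0 e1 : E, e0 ≠ e1 ∧ At src tgt v e0 ∧ At src tgt v e1 ∧
      ∀ S : Finset V, Odd (ct (ls src tgt v e0 e1) (lt src tgt v e0 e1) S) →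
        l ≤ ct (ls src tgt v e0 e1) (lt src tgt v e0 e1) S + 2 * hb A S := by
  by_contra hcon
  push Not at hcon
  have hbad : ∀ e0 e1 : E, e0 ≠ e1 → At src tgt v e0 → At src tgt v e1 →
      ∃ X : Finset V, v ∉ X ∧ oe src tgt v e0 ∈ X ∧ oe src tgt v e1 ∈ X ∧
        ct src tgt X + 2 * hb A X = l := by
    intro e0 e1 hne h0 h1
    obtain ⟨S, hS1, hS2⟩ := hcon e0 e1 hne h0 h1
    have hc := ct_lift src tgt v e0 e1 hne h0 h1 S
    by_cases hb' : (v ∉ S ∧ oe src tgt v e0 ∈ S ∧ oe src tgt v e1 ∈ S) ∨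
        (v ∈ S ∧ oe src tgt v e0 ∉ S ∧ oe src tgt v e1 ∉ S)
    · rw [if_pos hb'] at hc
      have hoS : Odd (ct src tgt S) := by
        rw [← hc]
        exact hS1.add_even (by decide)
      have h2 := hodd S hoS
      have h3 : ct src tgt S + 2 * hb A S = l := by
        obtain ⟨a, ha⟩ := hS1
        obtain ⟨b, hb''⟩ := hl
        omega
      rcases hb' with hb' | hb'
      · exact ⟨S, hb'.1, hb'.2.1, hb'.2.2, h3⟩
      · refine ⟨Sᶜ, ?_, ?_, ?_, ?_⟩
        · simpa using hb'.1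
        · simpa using hb'.2.1
        · simpa using hb'.2.2
        · rw [ct_compl, hb_compl, h3]
    · rw [if_neg hb'] at hc
      have h4 : ct (ls src tgt v e0 e1) (lt src tgt v e0 e1) S = ct src tgt S := by omega
      rw [h4] at hS1 hS2
      exact absurd (hodd S hS1) (by omega)
  -- two edges at v
  have hcard := ct_single src tgt v
  have htwo : 1 < (univ.filter (At src tgt v)).card := by
    obtain ⟨a, ha⟩ := hev
    omega
  obtain ⟨e0, he0, e1, he1, hne⟩ := Finset.one_lt_card.mp htwo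
  rw [Finset.mem_filter] at he0 he1
  obtain ⟨X0, hX0⟩ := hbad e0 e1 hne he0.2 he1.2
  set T : Finset (Finset V) := univ.filter (fun X => v ∉ X ∧ oe src tgt v e0 ∈ X ∧
    ct src tgt X + 2 * hb A X = l) with hT
  have hTne : T.Nonempty := ⟨X0, Finset.mem_filter.mpr ⟨Finset.mem_univ _, hX0.1, hX0.2.1,
    hX0.2.2.2⟩⟩
  obtain ⟨M, hM, hMmax⟩ := Finset.exists_max_image T Finset.card hTne
  rw [hT, Finset.mem_filter] at hM
  obtain ⟨-, hM1, hM2, hM3⟩ := hM
  have hMo : Odd (ct src tgt M) := by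
    obtain ⟨b, hb'⟩ := hl
    rw [Nat.odd_iff]
    omega
  have hall : ∀ e, At src tgt v e → oe src tgt v e ∈ M := by
    intro e he
    by_cases hee : e = e0
    · rw [hee]; exact hM2
    obtain ⟨Y, hY1, hY2, hY3, hY4⟩ := hbad e0 e (Ne.symm hee) he0.2 he
    have hYo : Odd (ct src tgt Y) := by
      obtain ⟨b, hb'⟩ := hl
      rw [Nat.odd_iff]
      omega
    have hun : ct src tgt (M ∪ Y) + 2 * hb A (M ∪ Y) = l := by
      have r1 := ct_submod src tgt M Y
      have r2 := ct_posimod src tgt M Y e0 (by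
        have ho : oe src tgt v e0 ∈ M ∩ Y := Finset.mem_inter.mpr ⟨hM2, hY2⟩
        have hv : v ∉ M ∪ Y := by
          rw [Finset.mem_union]
          rintro (h | h)
          · exact hM1 h
          · exact hY1 h
        rcases he0.2 with ⟨c1, c2⟩ | ⟨c1, c2⟩
        · right
          rw [oe, if_pos c1] at ho
          rw [c1]
          exact ⟨ho, hv⟩
        · left
          rw [oe, if_neg c1] at ho
          rw [c2]
          exact ⟨ho, hv⟩)
      have r3 := hb_submod A M Y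
      have r4 := hb_posimod A M Y
      rcases odd_cases src tgt M Y hMo hYo with ⟨o1, o2⟩ | ⟨o1, o2⟩
      · have s1 := hodd _ o1
        have s2 := hodd _ o2
        omega
      · have s1 := hodd _ o1
        have s2 := hodd _ o2
        omega
    have hmem : M ∪ Y ∈ T := by
      rw [hT, Finset.mem_filter]
      refine ⟨Finset.mem_univ _, ?_, Finset.mem_union_left _ hM2, hun⟩
      rw [Finset.mem_union]
      rintro (h | h)
      · exact hM1 h
      · exact hY1 h
    have hle := hMmax _ hmem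
    have heq : M = M ∪ Y := Finset.eq_of_subset_of_card_le Finset.subset_union_left hle
    rw [heq]
    exact Finset.mem_union_right _ hY3
  -- contradiction
  have hfin : ct src tgt (insert v M) + ct src tgt {v} = ct src tgt M := by
    simp only [ct, ← Finset.sum_add_distrib]
    refine Finset.sum_congr rfl fun e _ => ?_
    by_cases hAt : At src tgt v e
    · have ho := hall e hAt
      unfold oe at ho
      rcases hAt with ⟨c1, c2⟩ | ⟨c1, c2⟩
      · rw [if_pos c1] at ho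
        simp [c1, c2, hM1, ho]
      · rw [if_neg c1] at ho
        simp [c1, c2, hM1, ho]
    · unfold At at hAt
      by_cases c1 : src e = v
      · have c2 : tgt e = v := by
          by_contra c2
          exact hAt (Or.inl ⟨c1, c2⟩)
        simp [c1, c2]
      · have c2 : tgt e ≠ v := by
          intro c2
          exact hAt (Or.inr ⟨c1, c2⟩)
        simp [c1, c2, Finset.mem_insert]
  have hodd' : Odd (ct src tgt (insert v M)) := by
    obtain ⟨a, ha⟩ := hev
    rw [Nat.odd_iff] at hMo ⊢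
    omega
  have h5 := hodd _ hodd'
  rw [hb_insert hvA] at h5
  omega

omit [Fintype V] [DecidableEq E] in
/-- sets with exactly `l` leaving edges, minimal for inclusion, are disjoint. -/
theorem min_disjoint (src tgt : E → V) (l : ℕ) (hl : Odd l)
    (hodd : ∀ S : Finset V, Odd (ct src tgt S) → l ≤ ct src tgt S)
    (X Y : Finset V) (hX : ct src tgt X = l) (hY : ct src tgt Y = l)
    (hXm : ∀ Z : Finset V, ct src tgt Z = l → Z ⊆ X → Z = X)
    (hYm : ∀ Z : Finset V, ct src tgt Z = l → Z ⊆ Y → Z = Y) (hne : X ≠ Y) : Disjoint X Y := by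
  have hXo : Odd (ct src tgt X) := by rw [hX]; exact hl
  have hYo : Odd (ct src tgt Y) := by rw [hY]; exact hl
  have r1 := ct_submod src tgt X Y
  have r2 := ct_posimod0 src tgt X Y
  rcases odd_cases src tgt X Y hXo hYo with ⟨o1, o2⟩ | ⟨o1, o2⟩
  · have s1 := hodd _ o1
    have s2 := hodd _ o2
    have h1 : ct src tgt (X ∩ Y) = l := by omega
    have h2 := hXm _ h1 Finset.inter_subset_left
    have h3 := hYm _ h1 Finset.inter_subset_right
    exact absurd (h2.symm.trans h3) hne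
  · have s1 := hodd _ o1
    have s2 := hodd _ o2
    have h1 : ct src tgt (X \ Y) = l := by omega
    have h2 := hXm _ h1 Finset.sdiff_subset
    exact Finset.sdiff_eq_self_iff_disjoint.mp h2

end Pool.Agent.helper11.CFL.OddCut
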