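import Pool.Agent.helper62.CFL.Odd
import Pool.Agent.helper62.CFL.Cut2

/-! Flows from odd edge cuts of size at least `2k+1`, with at most `2k+3` disjoint cuts of size
exactly `2k+1`. -/

namespace Pool.Agent.helper11.CFL.OddCut

open Finset

variable {V E : Type} [Fintype V] [DecidableEq V] [Fintype E] [DecidableEq E]

/-- the hypothesis: odd cuts have at least `2k+1` edges and there are no `2k+4` pairwise disjoint
sets with exactly `2k+1` leaving edges. -/
def Hyp (src tgt : E → V) (k : ℕ) : Prop :=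
  (∀ S : Finset V, Odd (ct src tgt S) → 2 * k + 1 ≤ ct src tgt S) ∧
    ∀ X : Fin (2 * k + 4) → Finset V, (∀ i j, i ≠ j → Disjoint (X i) (X j)) →
      ∃ i, ct src tgt (X i) ≠ 2 * k + 1

omit [Fintype V] [DecidableEq E] in
/-- a pairwise disjoint family of tight sets has at most `2k+3` members. -/
theorem card_family (src tgt : E → V) (k : ℕ) (h : Hyp src tgt k) (F : Finset (Finset V))
    (hF : ∀ X ∈ F, ct src tgt X = 2 * k + 1) (hd : ∀ X ∈ F, ∀ Y ∈ F, X ≠ Y → Disjoint X Y) :
    F.card ≤ 2 * k + 3 := by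
  by_contra hcon
  push Not at hcon
  have h3 : Fintype.card (Fin (2 * k + 4)) ≤ Fintype.card F := by
    rw [Fintype.card_fin, Fintype.card_coe]
    omega
  obtain ⟨φ⟩ : Nonempty (Fin (2 * k + 4) ↪ F) := Function.Embedding.nonempty_of_card_le h3
  obtain ⟨i, hi⟩ := h.2 (fun i => (φ i : Finset V)) (fun i j hij => by
    refine hd _ (φ i).2 _ (φ j).2 fun h' => hij ?_
    exact φ.injective (Subtype.ext h'))
  exact hi (hF _ (φ i).2)

omit [Fintype V] [DecidableEq E] in
/-- an odd set contains an odd vertex -/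
theorem exists_odd_vertex (src tgt : E → V) (X : Finset V) (hX : Odd (ct src tgt X)) :
    ∃ v ∈ X, Odd (ct src tgt {v}) := by
  by_contra hcon
  push Not at hcon
  obtain ⟨z, hz⟩ := ct_sum_parity src tgt X
  have h1 : Even (∑ v ∈ X, ct src tgt {v}) := by
    refine Finset.sum_induction _ Even (fun _ _ => Even.add) (by simp) fun v hv => ?_
    exact Nat.not_odd_iff_even.mp (hcon v hv)
  obtain ⟨a, ha⟩ := hX
  obtain ⟨b, hb'⟩ := h1
  have h2 : (ct src tgt X : ℤ) = ((∑ v ∈ X, ct src tgt {v} : ℕ) : ℤ) + 2 * z := by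
    rw [hz]; push_cast; ring
  omega

omit [DecidableEq E] in
/-- the hyperedge -/
theorem exists_hyper (src tgt : E → V) (k : ℕ) (h : Hyp src tgt k) :
    ∃ A : Finset V, A.card ≤ 2 * k + 3 ∧ (∀ v ∈ A, Odd (ct src tgt {v})) ∧
      ∀ S : Finset V, Odd (ct src tgt S) → 2 * k + 3 ≤ ct src tgt S + 2 * hb A S := by
  classical
  rcases isEmpty_or_nonempty V with hV | hV
  · have : IsEmpty E := ⟨fun e => hV.elim (src e)⟩
    refine ⟨∅, by simp, by simp, fun S hS => ?_⟩
    exact absurd hS (by simp [ct])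
  set D : Finset (Finset V) := univ.filter (fun X => ct src tgt X = 2 * k + 1) with hD
  have hDm : ∀ X, X ∈ D ↔ ct src tgt X = 2 * k + 1 := fun X => by simp [hD]
  set M : Finset (Finset V) := D.filter (fun X => ∀ Z : Finset V, ct src tgt Z = 2 * k + 1 →
    Z ⊆ X → Z = X) with hM
  have hMm : ∀ X, X ∈ M ↔ ct src tgt X = 2 * k + 1 ∧ ∀ Z : Finset V, ct src tgt Z = 2 * k + 1 →
      Z ⊆ X → Z = X := fun X => by rw [hM, Finset.mem_filter, hDm]
  have hMd : ∀ X ∈ M, ∀ Y ∈ M, X ≠ Y → Disjoint X Y := by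
    intro X hX Y hY hne
    rw [hMm] at hX hY
    exact min_disjoint src tgt (2 * k + 1) ⟨k, rfl⟩ h.1 X Y hX.1 hY.1 hX.2 hY.2 hne
  have hMcard : M.card ≤ 2 * k + 3 :=
    card_family src tgt k h M (fun X hX => ((hMm X).mp hX).1) hMd
  have hbelow : ∀ S : Finset V, ct src tgt S = 2 * k + 1 → ∃ X ∈ M, X ⊆ S := by
    intro S hS
    set P : Finset (Finset V) := D.filter (fun X => X ⊆ S) with hP
    have hPne : P.Nonempty := ⟨S, Finset.mem_filter.mpr ⟨(hDm S).mpr hS, Finset.Subset.refl S⟩⟩
    obtain ⟨X, hX, hXmin⟩ := Finset.exists_min_image P Finset.card hPne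
    rw [hP, Finset.mem_filter, hDm] at hX
    refine ⟨X, (hMm X).mpr ⟨hX.1, fun Z hZ hZX => ?_⟩, hX.2⟩
    have hZP : Z ∈ P := Finset.mem_filter.mpr ⟨(hDm Z).mpr hZ, hZX.trans hX.2⟩
    exact Finset.eq_of_subset_of_card_le hZX (hXmin Z hZP)
  have hov : ∀ X : Finset V, ∃ v : V, X ∈ M → v ∈ X ∧ Odd (ct src tgt {v}) := by
    intro X
    by_cases hX : X ∈ M
    · obtain ⟨v, hv1, hv2⟩ := exists_odd_vertex src tgt X (by
        rw [((hMm X).mp hX).1]; exact ⟨k, rfl⟩)
      exact ⟨v, fun _ => ⟨hv1, hv2⟩⟩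
    · obtain ⟨v⟩ := hV
      exact ⟨v, fun h' => absurd h' hX⟩
  choose t ht using hov
  refine ⟨M.image t, Finset.card_image_le.trans hMcard, ?_, ?_⟩
  · intro v hv
    rw [Finset.mem_image] at hv
    obtain ⟨X, hX, rfl⟩ := hv
    exact (ht X hX).2
  · intro S hS
    have h1 := h.1 S hS
    by_cases h2 : ct src tgt S = 2 * k + 1
    · obtain ⟨X, hX, hXS⟩ := hbelow S h2
      obtain ⟨Y, hY, hYS⟩ := hbelow Sᶜ (by rw [ct_compl, h2])
      have h3 : hb (M.image t) S = 1 := by
        unfold hb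
        rw [if_pos]
        refine ⟨⟨t X, ?_⟩, ⟨t Y, ?_⟩⟩
        · rw [Finset.mem_inter]
          exact ⟨Finset.mem_image_of_mem _ hX, hXS (ht X hX).1⟩
        · rw [Finset.mem_sdiff]
          exact ⟨Finset.mem_image_of_mem _ hY, Finset.mem_compl.mp (hYS (ht Y hY).1)⟩
      rw [h3]
      omega
    · obtain ⟨a, ha⟩ := hS
      omega

omit [Fintype V] [DecidableEq E] in
/-- from the hyperedge form back to the hypothesis -/
theorem hyp_of_hyper (src tgt : E → V) (k : ℕ) (A : Finset V) (hA : A.card ≤ 2 * k + 3)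
    (h : ∀ S : Finset V, Odd (ct src tgt S) → 2 * k + 3 ≤ ct src tgt S + 2 * hb A S) :
    Hyp src tgt k := by
  refine ⟨fun S hS => ?_, fun X hX => ?_⟩
  · have h1 := h S hS
    have h2 := hb_le_one A S
    omega
  · by_contra hcon
    push Not at hcon
    have h1 : ∀ i, ∃ a ∈ A, a ∈ X i := by
      intro i
      have h2 := h (X i) (by rw [hcon i]; exact ⟨k, rfl⟩)
      rw [hcon i] at h2
      have h3 : hb A (X i) ≠ 0 := by omega
      unfold hb at h3
      have h4 : (A ∩ X i).Nonempty ∧ (A \ X i).Nonempty := by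
        by_contra h5
        rw [if_neg h5] at h3
        exact h3 rfl
      obtain ⟨a, ha⟩ := h4.1
      exact ⟨a, (Finset.mem_inter.mp ha).1, (Finset.mem_inter.mp ha).2⟩
    choose a ha1 ha2 using h1
    have hinj : Function.Injective a := by
      intro i j hij
      by_contra hne
      have := Finset.disjoint_left.mp (hX i j hne) (ha2 i)
      rw [hij] at this
      exact this (ha2 j)
    have h2 : (univ.image a).card = 2 * k + 4 := by
      rw [Finset.card_image_of_injective _ hinj, Finset.card_univ, Fintype.card_fin]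
    have h3 : (univ.image a).card ≤ A.card := by
      refine Finset.card_le_card fun x hx => ?_
      rw [Finset.mem_image] at hx
      obtain ⟨i, _, rfl⟩ := hx
      exact ha1 i
    omega

/-- existence of a dense set satisfying the partition condition, from a count. -/
theorem exists_dense2 (src tgt : E → V) (m : ℕ) (hm : 0 < m) (hnl : 0 < nl src tgt)
    (hden : m * (univ.filter (fun v => ct src tgt {v} ≠ 0)).card ≤ nl src tgt + m) :
    ∃ S : Finset V, 0 < (eS src tgt S).card ∧ S.Nonempty ∧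
      ∀ (p : ℕ) (π : {v : V // v ∈ S} → Fin p), Function.Surjective π →
      m * p ≤ (univ.filter (fun e => π (sS src tgt S e) ≠ π (tS src tgt S e))).card + m := by
  classical
  set W : Finset V := univ.filter (fun v => ct src tgt {v} ≠ 0) with hW
  have hWmem : ∀ v, v ∈ W ↔ ct src tgt {v} ≠ 0 := fun v => by simp [hW]
  have heW : (eS src tgt W).card = nl src tgt := by
    rw [nl, eS]
    congr 1
    ext e
    simp only [Finset.mem_filter, Finset.mem_univ, true_and, hWmem]
    constructor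
    · exact fun h => h.2.2
    · exact fun h => ⟨ct_pos_src src tgt e h, ct_pos_tgt src tgt e h, h⟩
  obtain ⟨e0, he0⟩ := Finset.card_pos.mp hnl
  rw [Finset.mem_filter] at he0
  have hW2 : 2 ≤ W.card := by
    have : 1 < W.card := Finset.one_lt_card.mpr
      ⟨src e0, (hWmem _).mpr (ct_pos_src src tgt e0 he0.2), tgt e0,
        (hWmem _).mpr (ct_pos_tgt src tgt e0 he0.2), he0.2⟩
    omega
  set T : Finset (Finset V) := univ.filter (fun S => 2 ≤ S.card ∧
    m * S.card ≤ (eS src tgt S).card + m) with hT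
  have hWT : W ∈ T := by
    rw [hT, Finset.mem_filter]
    exact ⟨Finset.mem_univ _, hW2, by rw [heW]; exact hden⟩
  obtain ⟨S, hS, hSmin⟩ := Finset.exists_min_image T Finset.card ⟨W, hWT⟩
  rw [hT, Finset.mem_filter] at hS
  obtain ⟨-, hS2, hSd⟩ := hS
  have hprop : ∀ R : Finset V, R ⊂ S → R.Nonempty → (eS src tgt R).card + m ≤ m * R.card := by
    intro R hRS hR
    have hlt := Finset.card_lt_card hRS
    rcases Nat.lt_or_ge R.card 2 with h2 | h2
    · have h1 : R.card = 1 := by
        have := Finset.card_pos.mpr hR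
        omega
      have h0 : (eS src tgt R).card = 0 := by
        rw [Finset.card_eq_zero, Finset.eq_empty_iff_forall_notMem]
        intro e he
        rw [eS, Finset.mem_filter] at he
        exact he.2.2.2 (Finset.card_le_one.mp (by omega) _ he.2.1 _ he.2.2.1)
      rw [h0, h1]
      omega
    · by_contra hcon
      have hmem : R ∈ T := by
        rw [hT, Finset.mem_filter]
        exact ⟨Finset.mem_univ _, h2, by omega⟩
      have := hSmin R hmem
      omega
  refine ⟨S, ?_, Finset.card_pos.mp (by omega), ?_⟩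
  · nlinarith
  intro p π hπ
  rcases Nat.lt_or_ge p 2 with hp | hp
  · interval_cases p
    · omega
    · omega
  set A : Fin p → Finset V := fun i => univ.filter (fun v => ∃ h : v ∈ S, π ⟨v, h⟩ = i) with hA
  have hAmem : ∀ i v, v ∈ A i ↔ ∃ h : v ∈ S, π ⟨v, h⟩ = i := fun i v => by simp [hA]
  have hAne : ∀ i, (A i).Nonempty := by
    intro i
    obtain ⟨v, hv⟩ := hπ i
    exact ⟨v.1, (hAmem _ _).mpr ⟨v.2, hv⟩⟩
  have hAS : ∀ i, A i ⊂ S := by
    intro i
    rw [Finset.ssubset_iff_of_subset]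
    · obtain ⟨j, hj⟩ : ∃ j : Fin p, j ≠ i := by
        by_cases h0 : i.val = 0
        · exact ⟨⟨1, by omega⟩, fun h => by rw [← h] at h0; simp at h0⟩
        · exact ⟨⟨0, by omega⟩, fun h => h0 (by rw [← h])⟩
      obtain ⟨v, hv⟩ := hAne j
      obtain ⟨h1, h2⟩ := (hAmem _ _).mp hv
      refine ⟨v, h1, fun h => ?_⟩
      obtain ⟨h3, h4⟩ := (hAmem _ _).mp h
      exact hj (h2.symm.trans h4)
    · intro v hv
      exact ((hAmem _ _).mp hv).1
  have hAcard : ∑ i, (A i).card = S.card := by
    rw [← Finset.card_biUnion]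
    · congr 1
      ext v
      simp only [Finset.mem_biUnion, Finset.mem_univ, true_and, hAmem]
      constructor
      · rintro ⟨i, h, -⟩; exact h
      · intro h; exact ⟨π ⟨v, h⟩, h, rfl⟩
    · intro i _ j _ hij
      show Disjoint (A i) (A j)
      rw [Finset.disjoint_left]
      intro v h1 h2
      obtain ⟨h3, h4⟩ := (hAmem _ _).mp h1
      obtain ⟨h5, h6⟩ := (hAmem _ _).mp h2
      exact hij (h4.symm.trans h6)
  set C := univ.filter (fun e => π (sS src tgt S e) ≠ π (tS src tgt S e)) with hC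
  have hcover : eS src tgt S ⊆ C.image Subtype.val ∪ univ.biUnion (fun i => eS src tgt (A i)) := by
    intro e he
    rw [eS, Finset.mem_filter] at he
    obtain ⟨-, h1, h2, h3⟩ := he
    rw [Finset.mem_union, Finset.mem_image, Finset.mem_biUnion]
    by_cases hc : π ⟨src e, h1⟩ = π ⟨tgt e, h2⟩
    · right
      refine ⟨π ⟨src e, h1⟩, Finset.mem_univ _, ?_⟩
      rw [eS, Finset.mem_filter]
      exact ⟨Finset.mem_univ _, (hAmem _ _).mpr ⟨h1, rfl⟩, (hAmem _ _).mpr ⟨h2, hc.symm⟩, h3⟩
    · left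
      exact ⟨⟨e, h1, h2⟩, Finset.mem_filter.mpr ⟨Finset.mem_univ _, hc⟩, rfl⟩
  have hcount : (eS src tgt S).card ≤ C.card + ∑ i, (eS src tgt (A i)).card :=
    (Finset.card_le_card hcover).trans ((Finset.card_union_le _ _).trans
      (Nat.add_le_add Finset.card_image_le Finset.card_biUnion_le))
  have hparts : ∑ i, ((eS src tgt (A i)).card + m) ≤ ∑ i, m * (A i).card :=
    Finset.sum_le_sum fun i _ => hprop _ (hAS i) (hAne i)
  rw [Finset.sum_add_distrib, ← Finset.mul_sum, hAcard, Finset.sum_const, Finset.card_univ,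
    Fintype.card_fin, smul_eq_mul] at hparts
  have : m * p = p * m := mul_comm _ _
  omega

omit [DecidableEq E] in
/-- the count when all non isolated vertices are odd -/
theorem dense_count (src tgt : E → V) (k : ℕ) (h : Hyp src tgt k)
    (hev : ∀ v, Even (ct src tgt {v}) → ct src tgt {v} = 0) :
    (k + 1) * (univ.filter (fun v => ct src tgt {v} ≠ 0)).card ≤ nl src tgt + (k + 1) := by
  classical
  set W : Finset V := univ.filter (fun v => ct src tgt {v} ≠ 0) with hW
  have hWmem : ∀ v, v ∈ W ↔ ct src tgt {v} ≠ 0 := fun v => by simp [hW]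
  set Q : Finset V := univ.filter (fun v => ct src tgt {v} = 2 * k + 1) with hQ
  have hQmem : ∀ v, v ∈ Q ↔ ct src tgt {v} = 2 * k + 1 := fun v => by simp [hQ]
  have hQW : Q ⊆ W := by
    intro v hv
    rw [hQmem] at hv
    rw [hWmem]
    omega
  have hQW' : Q.card ≤ W.card := Finset.card_le_card hQW
  have hQc : Q.card ≤ 2 * k + 3 := by
    have h1 : (Q.image (fun v => ({v} : Finset V))).card = Q.card :=
      Finset.card_image_of_injective _ Finset.singleton_injective
    rw [← h1]
    refine card_family src tgt k h _ ?_ ?_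
    · intro X hX
      rw [Finset.mem_image] at hX
      obtain ⟨v, hv, rfl⟩ := hX
      exact (hQmem v).mp hv
    · intro X hX Y hY hne
      rw [Finset.mem_image] at hX hY
      obtain ⟨v, hv, rfl⟩ := hX
      obtain ⟨u, hu, rfl⟩ := hY
      rw [Finset.disjoint_singleton]
      rintro rfl
      exact hne rfl
  have hlow : ∀ v ∈ W, 2 * k + 3 ≤ ct src tgt {v} + 2 * (if v ∈ Q then 1 else 0) := by
    intro v hv
    rw [hWmem] at hv
    have ho : Odd (ct src tgt {v}) := by
      rw [← Nat.not_even_iff_odd]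
      exact fun he => hv (hev v he)
    have h1 := h.1 _ ho
    by_cases hq : v ∈ Q
    · rw [if_pos hq]
      omega
    · rw [if_neg hq]
      rw [hQmem] at hq
      obtain ⟨a, ha⟩ := ho
      omega
  have hsum : (2 * k + 3) * W.card ≤ 2 * nl src tgt + 2 * Q.card := by
    have h1 : ∑ v ∈ W, (2 * k + 3) ≤ ∑ v ∈ W, (ct src tgt {v} + 2 * (if v ∈ Q then 1 else 0)) :=
      Finset.sum_le_sum hlow
    rw [Finset.sum_const, smul_eq_mul, Finset.sum_add_distrib, ← Finset.mul_sum] at h1
    have h2 : ∑ v ∈ W, ct src tgt {v} ≤ ∑ v, ct src tgt {v} :=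
      Finset.sum_le_sum_of_subset_of_nonneg (Finset.subset_univ _) fun _ _ _ => Nat.zero_le _
    have h3 : ∑ v ∈ W, (if v ∈ Q then 1 else 0) = Q.card := by
      rw [← Finset.sum_filter, Finset.filter_mem_eq_inter, Finset.inter_eq_right.mpr hQW]
      simp
    rw [sum_ct] at h2
    rw [h3] at h1
    nlinarith
  have hpar : Even W.card := by
    have h1 : ∑ v ∈ W, ct src tgt {v} = ∑ v, ct src tgt {v} := by
      refine Finset.sum_subset (Finset.subset_univ _) fun v _ hv => ?_
      rw [hWmem, not_not] at hv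
      exact hv
    rw [sum_ct] at h1
    rw [← Nat.not_odd_iff_even]
    intro ho
    have h2 : Odd (∑ v ∈ W, ct src tgt {v}) := by
      rw [Finset.odd_sum_iff_odd_card_odd, Finset.filter_true_of_mem]
      · exact ho
      · intro v hv
        rw [hWmem] at hv
        rw [← Nat.not_even_iff_odd]
        exact fun he => hv (hev v he)
    rw [h1, Nat.odd_iff] at h2
    omega
  obtain ⟨a, ha⟩ := hpar
  have hWQ : 2 * Q.card ≤ W.card + (2 * k + 2) := by omega
  nlinarith

theorem good_of_hyp (hZO : ZO_stmt) (k : ℕ) : ∀ (n : ℕ) (src tgt : E → V), nl src tgt = n →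
    Hyp src tgt k → Good src tgt (k + 1) := by
  classical
  intro n
  induction n using Nat.strong_induction_on with
  | _ n ih =>
  intro src tgt hn hh
  rcases Nat.eq_zero_or_pos (nl src tgt) with h0 | hpos
  · have hall : ∀ e, src e = tgt e := by
      intro e
      by_contra h
      have : e ∈ univ.filter (fun e => src e ≠ tgt e) :=
        Finset.mem_filter.mpr ⟨Finset.mem_univ _, h⟩
      rw [nl, Finset.card_eq_zero] at h0
      rw [h0] at this
      simp at this
    refine ⟨fun _ => 0, fun e => by simp, fun v => ⟨0, ?_⟩⟩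
    have h1 : ct src tgt {v} = 0 := by
      rw [ct]
      refine Finset.sum_eq_zero fun e _ => ?_
      rw [hall e, if_neg]
      tauto
    rw [h1]
    simp [dv]
  by_cases hev : ∃ v, Even (ct src tgt {v}) ∧ 0 < ct src tgt {v}
  · obtain ⟨v, hv1, hv2⟩ := hev
    obtain ⟨A, hA1, hA2, hA3⟩ := exists_hyper src tgt k hh
    have hvA : v ∉ A := fun h => by
      have := hA2 v h
      rw [← Nat.not_even_iff_odd] at this
      exact this hv1
    obtain ⟨e0, e1, hne, h0, h1, hl⟩ := lift_exists2 src tgt A (2 * k + 3)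
      ⟨k + 1, by ring⟩ hA3 v hvA hv1 hv2
    have hlt := nl_lift src tgt v e0 e1 hne h0 h1
    exact good_lift src tgt v e0 e1 hne h0 h1 (k + 1)
      (ih _ (by rw [← hn]; exact hlt) _ _ rfl (hyp_of_hyper _ _ k A hA1 hl))
  · push Not at hev
    have hden := dense_count src tgt k hh (fun v hv => by
      have := hev v hv
      omega)
    obtain ⟨S, hS1, ⟨s0, hs0⟩, hS3⟩ := exists_dense2 src tgt (k + 1) (Nat.succ_pos k) hpos hden
    refine good_contract hZO src tgt (k + 1) (Nat.succ_pos k) S s0 hs0 hS3 ?_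
    refine ih _ ?_ _ _ rfl ?_
    · rw [← hn, nl, nl]
      refine Finset.card_lt_card ?_
      rw [Finset.ssubset_iff_of_subset]
      · obtain ⟨e, he⟩ := Finset.card_pos.mp hS1
        rw [eS, Finset.mem_filter] at he
        refine ⟨e, Finset.mem_filter.mpr ⟨Finset.mem_univ _, he.2.2.2⟩, ?_⟩
        rw [Finset.mem_filter]
        rintro ⟨_, h⟩
        exact h (by simp only [rh, if_pos he.2.1, if_pos he.2.2.1])
      · intro e he
        rw [Finset.mem_filter] at he
        refine Finset.mem_filter.mpr ⟨Finset.mem_univ _, fun h => he.2 ?_⟩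
        rw [h]
    · refine ⟨fun X hX => ?_, fun X hX => ?_⟩
      · rw [ct_rh] at hX ⊢
        exact hh.1 _ hX
      · obtain ⟨i, hi⟩ := hh.2 (fun i => univ.filter fun u => rh S s0 u ∈ X i) (fun i j hij => by
          rw [Finset.disjoint_left]
          intro u h1 h2
          simp only [Finset.mem_filter, Finset.mem_univ, true_and] at h1 h2
          exact Finset.disjoint_left.mp (hX i j hij) h1 h2)
        exact ⟨i, by rw [ct_rh]; exact hi⟩

/-- MAIN -/
theorem tight_cut_flow (hZO : ZO_stmt) (hRD : RD_stmt) (k : ℕ) (src tgt : E → V)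
    (h : ∀ S : Finset V,
      Odd (univ.filter (fun e => (src e ∈ S ∧ tgt e ∉ S) ∨ (src e ∉ S ∧ tgt e ∈ S))).card →
      2 * k + 1 ≤
        (univ.filter (fun e => (src e ∈ S ∧ tgt e ∉ S) ∨ (src e ∉ S ∧ tgt e ∈ S))).card)
    (hd : ∀ X : Fin (2 * k + 4) → Finset V, (∀ i j, i ≠ j → Disjoint (X i) (X j)) →
      ∃ i, (univ.filter (fun e => (src e ∈ X i ∧ tgt e ∉ X i) ∨
        (src e ∉ X i ∧ tgt e ∈ X i))).card ≠ 2 * k + 1) :
    ∃ F : E → ℤ, (∀ e, (k : ℤ) ≤ |F e| ∧ |F e| ≤ (k : ℤ) + 2) ∧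
      ∀ v, ∑ e ∈ univ.filter (fun e => src e = v), F e =
        ∑ e ∈ univ.filter (fun e => tgt e = v), F e := by
  have h1 : ∀ S : Finset V, ct src tgt S =
      (univ.filter (fun e => (src e ∈ S ∧ tgt e ∉ S) ∨ (src e ∉ S ∧ tgt e ∈ S))).card := by
    intro S
    rw [Finset.card_filter, ct]
  refine flow_of_good hRD src tgt k (good_of_hyp hZO k _ src tgt rfl ⟨fun S hS => ?_,
    fun X hX => ?_⟩)
  · rw [h1] at hS ⊢
    exact h S hS
  · obtain ⟨i, hi⟩ := hd X hX
    exact ⟨i, by rw [h1]; exact hi⟩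

end Pool.Agent.helper11.CFL.OddCut
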