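import Pool.Agent.helper11.CFL.Spec

/-! Cut function of a multigraph: parity, uncrossing, and the lifting lemma at a vertex of even
degree (all odd cuts stay large). -/

namespace Pool.Agent.helper11.CFL.OddCut

open Finset

variable {V E : Type} [Fintype V] [DecidableEq V] [Fintype E] [DecidableEq E]

/-- indicator -/
def ind (p : Prop) [Decidable p] : ℕ := if p then 1 else 0

/-- number of edges leaving `S`. -/
def ct (src tgt : E → V) (S : Finset V) : ℕ :=
  ∑ e, if (src e ∈ S ∧ tgt e ∉ S) ∨ (src e ∉ S ∧ tgt e ∈ S) then 1 else 0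

/-- number of edge ends in `S`. -/
def pr (src tgt : E → V) (S : Finset V) : ℕ :=
  ∑ e, ((if src e ∈ S then 1 else 0) + (if tgt e ∈ S then 1 else 0))

/-- number of edges inside `S`. -/
def bt (src tgt : E → V) (S : Finset V) : ℕ :=
  ∑ e, (if src e ∈ S ∧ tgt e ∈ S then 1 else 0)

omit [Fintype V] [DecidableEq E] in
theorem pr_eq (src tgt : E → V) (S : Finset V) : pr src tgt S = ct src tgt S + 2 * bt src tgt S := by
  rw [pr, ct, bt, Finset.mul_sum, ← Finset.sum_add_distrib]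
  refine Finset.sum_congr rfl fun e _ => ?_
  by_cases h1 : src e ∈ S <;> by_cases h2 : tgt e ∈ S <;> simp [h1, h2]

omit [Fintype V] [DecidableEq E] in
theorem pr_union_inter (src tgt : E → V) (X Y : Finset V) :
    pr src tgt (X ∪ Y) + pr src tgt (X ∩ Y) = pr src tgt X + pr src tgt Y := by
  simp only [pr, ← Finset.sum_add_distrib]
  refine Finset.sum_congr rfl fun e _ => ?_
  by_cases h1 : src e ∈ X <;> by_cases h2 : tgt e ∈ X <;> by_cases h3 : src e ∈ Y <;>
    by_cases h4 : tgt e ∈ Y <;> simp [h1, h2, h3, h4]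

omit [Fintype V] [DecidableEq E] in
theorem pr_sdiff (src tgt : E → V) (X Y : Finset V) :
    pr src tgt (X \ Y) + pr src tgt (X ∩ Y) = pr src tgt X := by
  simp only [pr, ← Finset.sum_add_distrib]
  refine Finset.sum_congr rfl fun e _ => ?_
  by_cases h1 : src e ∈ X <;> by_cases h2 : tgt e ∈ X <;> by_cases h3 : src e ∈ Y <;>
    by_cases h4 : tgt e ∈ Y <;> simp [h1, h2, h3, h4]

omit [Fintype V] [DecidableEq E] in
theorem ct_submod (src tgt : E → V) (X Y : Finset V) :
    ct src tgt (X ∪ Y) + ct src tgt (X ∩ Y) ≤ ct src tgt X + ct src tgt Y := by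
  simp only [ct, ← Finset.sum_add_distrib]
  refine Finset.sum_le_sum fun e _ => ?_
  by_cases h1 : src e ∈ X <;> by_cases h2 : tgt e ∈ X <;> by_cases h3 : src e ∈ Y <;>
    by_cases h4 : tgt e ∈ Y <;> simp [h1, h2, h3, h4]

omit [Fintype V] in
theorem ct_posimod (src tgt : E → V) (X Y : Finset V) (e0 : E)
    (h0 : (src e0 ∈ X ∩ Y ∧ tgt e0 ∉ X ∪ Y) ∨ (tgt e0 ∈ X ∩ Y ∧ src e0 ∉ X ∪ Y)) :
    ct src tgt (X \ Y) + ct src tgt (Y \ X) + 2 ≤ ct src tgt X + ct src tgt Y := by
  simp only [ct, ← Finset.sum_add_distrib]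
  rw [← Finset.add_sum_erase _ _ (Finset.mem_univ e0),
    ← Finset.add_sum_erase (a := e0) Finset.univ (fun e =>
      (if (src e ∈ X ∧ tgt e ∉ X) ∨ (src e ∉ X ∧ tgt e ∈ X) then 1 else 0) +
      (if (src e ∈ Y ∧ tgt e ∉ Y) ∨ (src e ∉ Y ∧ tgt e ∈ Y) then 1 else 0)) (Finset.mem_univ e0)]
  have h1 : ∑ e ∈ univ.erase e0,
      ((if (src e ∈ X \ Y ∧ tgt e ∉ X \ Y) ∨ (src e ∉ X \ Y ∧ tgt e ∈ X \ Y) then 1 else 0) +
      (if (src e ∈ Y \ X ∧ tgt e ∉ Y \ X) ∨ (src e ∉ Y \ X ∧ tgt e ∈ Y \ X) then 1 else 0))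
      ≤ ∑ e ∈ univ.erase e0,
      ((if (src e ∈ X ∧ tgt e ∉ X) ∨ (src e ∉ X ∧ tgt e ∈ X) then 1 else 0) +
      (if (src e ∈ Y ∧ tgt e ∉ Y) ∨ (src e ∉ Y ∧ tgt e ∈ Y) then 1 else 0)) := by
    refine Finset.sum_le_sum fun e _ => ?_
    by_cases h1 : src e ∈ X <;> by_cases h2 : tgt e ∈ X <;> by_cases h3 : src e ∈ Y <;>
      by_cases h4 : tgt e ∈ Y <;> simp [h1, h2, h3, h4]
  have h2 : ((if (src e0 ∈ X \ Y ∧ tgt e0 ∉ X \ Y) ∨ (src e0 ∉ X \ Y ∧ tgt e0 ∈ X \ Y)
        then 1 else 0) +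
      (if (src e0 ∈ Y \ X ∧ tgt e0 ∉ Y \ X) ∨ (src e0 ∉ Y \ X ∧ tgt e0 ∈ Y \ X) then 1 else 0)) + 2
      ≤ ((if (src e0 ∈ X ∧ tgt e0 ∉ X) ∨ (src e0 ∉ X ∧ tgt e0 ∈ X) then 1 else 0) +
      (if (src e0 ∈ Y ∧ tgt e0 ∉ Y) ∨ (src e0 ∉ Y ∧ tgt e0 ∈ Y) then 1 else 0)) := by
    simp only [Finset.mem_inter, Finset.mem_union, not_or] at h0
    rcases h0 with ⟨⟨a1, a2⟩, a3, a4⟩ | ⟨⟨a1, a2⟩, a3, a4⟩ <;> simp [a1, a2, a3, a4]
  omega

omit [DecidableEq E] in
theorem ct_compl (src tgt : E → V) (X : Finset V) : ct src tgt Xᶜ = ct src tgt X := by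
  simp only [ct]
  refine Finset.sum_congr rfl fun e _ => ?_
  by_cases h1 : src e ∈ X <;> by_cases h2 : tgt e ∈ X <;> simp [h1, h2]

/-- other end -/
def oe (src tgt : E → V) (v : V) (e : E) : V := if src e = v then tgt e else src e

/-- `e` is a non loop edge at `v`. -/
def At (src tgt : E → V) (v : V) (e : E) : Prop :=
  (src e = v ∧ tgt e ≠ v) ∨ (src e ≠ v ∧ tgt e = v)

instance (src tgt : E → V) (v : V) : DecidablePred (At src tgt v) := fun _ => by
  unfold At; infer_instance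

omit [Fintype V] [DecidableEq E] in
theorem ct_single (src tgt : E → V) (v : V) :
    ct src tgt {v} = (univ.filter (At src tgt v)).card := by
  rw [Finset.card_filter, ct]
  refine Finset.sum_congr rfl fun e _ => ?_
  simp only [Finset.mem_singleton, At, ne_eq]

omit [Fintype V] [Fintype E] [DecidableEq E] in
theorem oe_ne {src tgt : E → V} {v : V} {e : E} (h : At src tgt v e) : oe src tgt v e ≠ v := by
  unfold oe
  rcases h with ⟨h1, h2⟩ | ⟨h1, h2⟩
  · rw [if_pos h1]; exact h2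
  · rw [if_neg h1]; exact h1

/-- sources after lifting the pair `e0, e1` at `v`. -/
def ls (src tgt : E → V) (v : V) (e0 e1 : E) (e : E) : V :=
  if e = e0 then oe src tgt v e0 else if e = e1 then v else src e

/-- targets after lifting the pair `e0, e1` at `v`. -/
def lt (src tgt : E → V) (v : V) (e0 e1 : E) (e : E) : V :=
  if e = e0 then oe src tgt v e1 else if e = e1 then v else tgt e

omit [Fintype V] in
theorem split2 {M : Type} [AddCommMonoid M] (e0 e1 : E) (hne : e0 ≠ e1) (f : E → M) :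
    ∑ e, f e = f e0 + (f e1 + ∑ e ∈ (univ.erase e0).erase e1, f e) := by
  rw [Finset.add_sum_erase (univ.erase e0) f (Finset.mem_erase.mpr ⟨hne.symm, Finset.mem_univ _⟩),
    Finset.add_sum_erase univ f (Finset.mem_univ e0)]

omit [Fintype V] in
theorem ct_lift (src tgt : E → V) (v : V) (e0 e1 : E) (hne : e0 ≠ e1)
    (h0 : At src tgt v e0) (h1 : At src tgt v e1) (S : Finset V) :
    ct (ls src tgt v e0 e1) (lt src tgt v e0 e1) S +
      2 * (if (v ∉ S ∧ oe src tgt v e0 ∈ S ∧ oe src tgt v e1 ∈ S) ∨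
        (v ∈ S ∧ oe src tgt v e0 ∉ S ∧ oe src tgt v e1 ∉ S) then 1 else 0) = ct src tgt S := by
  rw [ct, ct, split2 e0 e1 hne, split2 e0 e1 hne
    (fun e => if (src e ∈ S ∧ tgt e ∉ S) ∨ (src e ∉ S ∧ tgt e ∈ S) then 1 else 0)]
  have hrest : ∑ e ∈ (univ.erase e0).erase e1,
      (if (ls src tgt v e0 e1 e ∈ S ∧ lt src tgt v e0 e1 e ∉ S) ∨
        (ls src tgt v e0 e1 e ∉ S ∧ lt src tgt v e0 e1 e ∈ S) then 1 else 0)
      = ∑ e ∈ (univ.erase e0).erase e1,
        (if (src e ∈ S ∧ tgt e ∉ S) ∨ (src e ∉ S ∧ tgt e ∈ S) then 1 else 0) := by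
    refine Finset.sum_congr rfl fun e he => ?_
    rw [Finset.mem_erase, Finset.mem_erase] at he
    have e1' : ls src tgt v e0 e1 e = src e := by
      rw [ls, if_neg he.2.1, if_neg he.1]
    have e2' : lt src tgt v e0 e1 e = tgt e := by
      rw [lt, if_neg he.2.1, if_neg he.1]
    rw [e1', e2']
  rw [hrest]
  have a1 : ls src tgt v e0 e1 e0 = oe src tgt v e0 := by rw [ls, if_pos rfl]
  have a2 : lt src tgt v e0 e1 e0 = oe src tgt v e1 := by rw [lt, if_pos rfl]
  have a3 : ls src tgt v e0 e1 e1 = v := by rw [ls, if_neg hne.symm, if_pos rfl]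
  have a4 : lt src tgt v e0 e1 e1 = v := by rw [lt, if_neg hne.symm, if_pos rfl]
  rw [a1, a2, a3, a4]
  have b : ∀ e, At src tgt v e →
      (if (src e ∈ S ∧ tgt e ∉ S) ∨ (src e ∉ S ∧ tgt e ∈ S) then 1 else 0) =
      (if (v ∈ S ∧ oe src tgt v e ∉ S) ∨ (v ∉ S ∧ oe src tgt v e ∈ S) then 1 else 0) := by
    intro e he
    unfold oe
    rcases he with ⟨c1, c2⟩ | ⟨c1, c2⟩
    · rw [if_pos c1, c1]
    · rw [if_neg c1, c2]
      by_cases d1 : v ∈ S <;> by_cases d2 : src e ∈ S <;> simp [d1, d2]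
  rw [b e0 h0, b e1 h1]
  by_cases d1 : v ∈ S <;> by_cases d2 : oe src tgt v e0 ∈ S <;>
    by_cases d3 : oe src tgt v e1 ∈ S <;> simp [d1, d2, d3] <;> omega

/-- the lifting lemma -/
theorem lift_exists (src tgt : E → V) (l : ℕ) (hl : Odd l)
    (hodd : ∀ S : Finset V, Odd (ct src tgt S) → l ≤ ct src tgt S)
    (v : V) (hev : Even (ct src tgt {v})) (hpos : 0 < ct src tgt {v}) :
    ∃ e0 e1 : E, e0 ≠ e1 ∧ At src tgt v e0 ∧ At src tgt v e1 ∧
      ∀ S : Finset V, Odd (ct (ls src tgt v e0 e1) (lt src tgt v e0 e1) S) →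
        l ≤ ct (ls src tgt v e0 e1) (lt src tgt v e0 e1) S := by
  by_contra hcon
  push Not at hcon
  have hbad : ∀ e0 e1 : E, e0 ≠ e1 → At src tgt v e0 → At src tgt v e1 →
      ∃ X : Finset V, v ∉ X ∧ oe src tgt v e0 ∈ X ∧ oe src tgt v e1 ∈ X ∧ ct src tgt X = l := by
    intro e0 e1 hne h0 h1
    obtain ⟨S, hS1, hS2⟩ := hcon e0 e1 hne h0 h1
    have hc := ct_lift src tgt v e0 e1 hne h0 h1 S
    by_cases hb : (v ∉ S ∧ oe src tgt v e0 ∈ S ∧ oe src tgt v e1 ∈ S) ∨
        (v ∈ S ∧ oe src tgt v e0 ∉ S ∧ oe src tgt v e1 ∉ S)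
    · rw [if_pos hb] at hc
      have hoS : Odd (ct src tgt S) := by
        rw [← hc]
        exact hS1.add_even (by decide)
      have h2 := hodd S hoS
      have h3 : ct src tgt S = l := by
        obtain ⟨a, ha⟩ := hS1
        obtain ⟨b, hb'⟩ := hl
        omega
      rcases hb with hb | hb
      · exact ⟨S, hb.1, hb.2.1, hb.2.2, h3⟩
      · refine ⟨Sᶜ, ?_, ?_, ?_, ?_⟩
        · simpa using hb.1
        · simpa using hb.2.1
        · simpa using hb.2.2
        · rw [ct_compl, h3]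
    · rw [if_neg hb] at hc
      have h4 : ct (ls src tgt v e0 e1) (lt src tgt v e0 e1) S = ct src tgt S := by omega
      rw [h4] at hS1 hS2
      exact absurd (hodd S hS1) (by omega)
  -- two edges at v
  have hcard := ct_single src tgt v
  have htwo : 1 < (univ.filter (At src tgt v)).card := by
    obtain ⟨a, ha⟩ := hev
    omega
  obtain ⟨e0, he0, e1, he1, hne⟩ := Finset.one_lt_card.mp htwo
  rw [Finset.mem_filter] at he0 he1
  obtain ⟨X0, hX0⟩ := hbad e0 e1 hne he0.2 he1.2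
  set T : Finset (Finset V) := univ.filter (fun X => v ∉ X ∧ oe src tgt v e0 ∈ X ∧
    ct src tgt X = l) with hT
  have hTne : T.Nonempty := ⟨X0, Finset.mem_filter.mpr ⟨Finset.mem_univ _, hX0.1, hX0.2.1,
    hX0.2.2.2⟩⟩
  obtain ⟨M, hM, hMmax⟩ := Finset.exists_max_image T Finset.card hTne
  rw [hT, Finset.mem_filter] at hM
  obtain ⟨-, hM1, hM2, hM3⟩ := hM
  have hall : ∀ e, At src tgt v e → oe src tgt v e ∈ M := by
    intro e he
    by_cases hee : e = e0
    · rw [hee]; exact hM2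
    obtain ⟨Y, hY1, hY2, hY3, hY4⟩ := hbad e0 e (Ne.symm hee) he0.2 he
    have hun : ct src tgt (M ∪ Y) = l := by
      have p1 := pr_eq src tgt M
      have p2 := pr_eq src tgt Y
      have p3 := pr_eq src tgt (M ∪ Y)
      have p4 := pr_eq src tgt (M ∩ Y)
      have p5 := pr_eq src tgt (M \ Y)
      have p6 := pr_eq src tgt (Y \ M)
      have q1 := pr_union_inter src tgt M Y
      have q2 := pr_sdiff src tgt M Y
      have q3 := pr_sdiff src tgt Y M
      rw [Finset.inter_comm Y M] at q3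
      have r1 := ct_submod src tgt M Y
      have r2 := ct_posimod src tgt M Y e0 (by
        have ho : oe src tgt v e0 ∈ M ∩ Y := Finset.mem_inter.mpr ⟨hM2, hY2⟩
        have hv : v ∉ M ∪ Y := by
          rw [Finset.mem_union]
          rintro (h | h)
          · exact hM1 h
          · exact hY1 h
        rcases he0.2 with ⟨c1, c2⟩ | ⟨c1, c2⟩
        · right
          rw [oe, if_pos c1] at ho
          rw [c1]
          exact ⟨ho, hv⟩
        · left
          rw [oe, if_neg c1] at ho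
          rw [c2]
          exact ⟨ho, hv⟩)
      obtain ⟨b, hb⟩ := hl
      by_cases hpar : Odd (ct src tgt (M ∩ Y))
      · have s1 := hodd _ hpar
        have hparU : Odd (ct src tgt (M ∪ Y)) := by
          obtain ⟨c, hc⟩ := hpar
          rw [Nat.odd_iff]
          omega
        have s2 := hodd _ hparU
        omega
      · rw [Nat.not_odd_iff_even] at hpar
        have hpar1 : Odd (ct src tgt (M \ Y)) := by
          obtain ⟨c, hc⟩ := hpar
          rw [Nat.odd_iff]
          omega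
        have hpar2 : Odd (ct src tgt (Y \ M)) := by
          obtain ⟨c, hc⟩ := hpar
          rw [Nat.odd_iff]
          omega
        have s1 := hodd _ hpar1
        have s2 := hodd _ hpar2
        omega
    have hmem : M ∪ Y ∈ T := by
      rw [hT, Finset.mem_filter]
      refine ⟨Finset.mem_univ _, ?_, Finset.mem_union_left _ hM2, hun⟩
      rw [Finset.mem_union]
      rintro (h | h)
      · exact hM1 h
      · exact hY1 h
    have hle := hMmax _ hmem
    have heq : M = M ∪ Y := Finset.eq_of_subset_of_card_le Finset.subset_union_left hle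
    rw [heq]
    exact Finset.mem_union_right _ hY3
  -- contradiction
  have hfin : ct src tgt (insert v M) + ct src tgt {v} = ct src tgt M := by
    simp only [ct, ← Finset.sum_add_distrib]
    refine Finset.sum_congr rfl fun e _ => ?_
    by_cases hAt : At src tgt v e
    · have ho := hall e hAt
      unfold oe at ho
      rcases hAt with ⟨c1, c2⟩ | ⟨c1, c2⟩
      · rw [if_pos c1] at ho
        simp [c1, c2, hM1, ho]
      · rw [if_neg c1] at ho
        simp [c1, c2, hM1, ho]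
    · unfold At at hAt
      by_cases c1 : src e = v
      · have c2 : tgt e = v := by
          by_contra c2
          exact hAt (Or.inl ⟨c1, c2⟩)
        simp [c1, c2]
      · have c2 : tgt e ≠ v := by
          intro c2
          exact hAt (Or.inr ⟨c1, c2⟩)
        simp [c1, c2, Finset.mem_insert]
  have hodd' : Odd (ct src tgt (insert v M)) := by
    obtain ⟨a, ha⟩ := hev
    obtain ⟨b, hb⟩ := hl
    rw [Nat.odd_iff]
    omega
  have := hodd _ hodd'
  omega

end Pool.Agent.helper11.CFL.OddCut
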