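import Pool.Agent.helper62.CFL.ZOR
import Pool.Agent.helper62.CFL.Odd2

/-! Good weightings with a real parameter: lifting, contraction, and the final flow. -/

namespace Pool.Agent.helper11.CFL.OddCut

open Finset

variable {V E : Type} [Fintype V] [DecidableEq V] [Fintype E] [DecidableEq E]

/-- a real function with values in `[-1,1]` whose divergence at `v` is `m` times an integer of the
parity of the degree of `v`; `m` is real. -/
def GoodR (src tgt : E → V) (m : ℝ) : Prop :=
  ∃ f : E → ℝ, (∀ e, |f e| ≤ 1) ∧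
    ∀ v, ∃ z : ℤ, dv src tgt f v = m * ((ct src tgt {v} : ℝ) + 2 * z)

omit [Fintype V] in
theorem goodR_lift (src tgt : E → V) (v : V) (e0 e1 : E) (hne : e0 ≠ e1)
    (h0 : At src tgt v e0) (h1 : At src tgt v e1) (m : ℝ)
    (hG : GoodR (ls src tgt v e0 e1) (lt src tgt v e0 e1) m) : GoodR src tgt m := by
  obtain ⟨f, hf1, hf2⟩ := hG
  set s0 : ℝ := if src e0 = v then -1 else 1 with hs0
  set s1 : ℝ := if src e1 = v then 1 else -1 with hs1
  set g : E → ℝ := fun e => if e = e0 then s0 * f e0 else if e = e1 then s1 * f e0 else f e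
    with hg
  have a0 : |s0| = 1 := by rw [hs0]; split_ifs <;> simp
  have a1 : |s1| = 1 := by rw [hs1]; split_ifs <;> simp
  refine ⟨g, fun e => ?_, fun u => ?_⟩
  · simp only [hg]
    split_ifs
    · rw [abs_mul, a0, one_mul]; exact hf1 e0
    · rw [abs_mul, a1, one_mul]; exact hf1 e0
    · exact hf1 e
  · obtain ⟨z, hz⟩ := hf2 u
    have hdv : dv src tgt g u = dv (ls src tgt v e0 e1) (lt src tgt v e0 e1) f u := by
      rw [dv, dv, split2 e0 e1 hne, split2 e0 e1 hne
        (fun e => f e * inc (ls src tgt v e0 e1) (lt src tgt v e0 e1) e u)]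
      have hrest : ∑ e ∈ (univ.erase e0).erase e1, g e * inc src tgt e u
          = ∑ e ∈ (univ.erase e0).erase e1,
            f e * inc (ls src tgt v e0 e1) (lt src tgt v e0 e1) e u := by
        refine Finset.sum_congr rfl fun e he => ?_
        rw [Finset.mem_erase, Finset.mem_erase] at he
        simp only [hg, inc, ls, lt, if_neg he.2.1, if_neg he.1]
      rw [hrest]
      have g0 : g e0 = s0 * f e0 := by simp [hg]
      have g1 : g e1 = s1 * f e0 := by simp [hg, hne.symm]
      rw [g0, g1]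
      have i0 : s0 * inc src tgt e0 u = (if oe src tgt v e0 = u then 1 else 0)
          - (if v = u then 1 else 0) := by
        unfold oe inc
        rcases h0 with ⟨c1, c2⟩ | ⟨c1, c2⟩
        · rw [hs0, if_pos c1, if_pos c1, c1]; ring
        · rw [hs0, if_neg c1, if_neg c1, c2]; ring
      have i1 : s1 * inc src tgt e1 u = (if v = u then 1 else 0)
          - (if oe src tgt v e1 = u then 1 else 0) := by
        unfold oe inc
        rcases h1 with ⟨c1, c2⟩ | ⟨c1, c2⟩
        · rw [hs1, if_pos c1, if_pos c1, c1]; ring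
        · rw [hs1, if_neg c1, if_neg c1, c2]; ring
      have j0 : inc (ls src tgt v e0 e1) (lt src tgt v e0 e1) e0 u
          = (if oe src tgt v e0 = u then 1 else 0) - (if oe src tgt v e1 = u then 1 else 0) := by
        simp only [inc, ls, lt, if_true]
      have j1 : inc (ls src tgt v e0 e1) (lt src tgt v e0 e1) e1 u = 0 := by
        simp only [inc, ls, lt, if_neg hne.symm, if_true, sub_self]
      rw [j0, j1]
      have k0 : s0 * f e0 * inc src tgt e0 u = f e0 * (s0 * inc src tgt e0 u) := by ring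
      have k1 : s1 * f e0 * inc src tgt e1 u = f e0 * (s1 * inc src tgt e1 u) := by ring
      rw [k0, k1, i0, i1]
      ring
    have hc := ct_lift src tgt v e0 e1 hne h0 h1 {u}
    rw [hdv, hz, ← hc]
    by_cases hb : (v ∉ ({u} : Finset V) ∧ oe src tgt v e0 ∈ ({u} : Finset V) ∧
        oe src tgt v e1 ∈ ({u} : Finset V)) ∨
        (v ∈ ({u} : Finset V) ∧ oe src tgt v e0 ∉ ({u} : Finset V) ∧
          oe src tgt v e1 ∉ ({u} : Finset V))
    · rw [if_pos hb]
      refine ⟨z - 1, ?_⟩
      push_cast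
      ring
    · rw [if_neg hb]
      refine ⟨z, ?_⟩
      push_cast
      ring

theorem goodR_contract (hZO : ZOR_stmt) (src tgt : E → V) (m : ℝ) (hm : 0 < m) (S : Finset V)
    (s0 : V) (hs : s0 ∈ S)
    (hpart : ∀ (p : ℕ) (π : {v : V // v ∈ S} → Fin p), Function.Surjective π →
      m * p ≤ ((univ.filter (fun e => π (sS src tgt S e) ≠ π (tS src tgt S e))).card : ℝ) + m)
    (hG : GoodR (fun e => rh S s0 (src e)) (fun e => rh S s0 (tgt e)) m) : GoodR src tgt m := by
  obtain ⟨f, hf1, hf2⟩ := hG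
  have : Nonempty {v : V // v ∈ S} := ⟨⟨s0, hs⟩⟩
  set g : E → ℝ := fun e => if src e ∈ S ∧ tgt e ∈ S then 0 else f e with hg
  obtain ⟨z0, hz0⟩ := hf2 s0
  obtain ⟨zp, hzp⟩ := ct_sum_parity src tgt S
  have hct0 : ct (fun e => rh S s0 (src e)) (fun e => rh S s0 (tgt e)) {s0} = ct src tgt S := by
    rw [ct_rh]
    congr 1
    ext u
    simp only [Finset.mem_filter, Finset.mem_univ, true_and, Finset.mem_singleton]
    exact rh_eq_base hs u
  -- integer targets
  set y : V → ℤ := fun v => if v = s0 then (ct src tgt {s0} : ℤ) + 2 * (zp + z0)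
    else (ct src tgt {v} : ℤ) with hy
  have hysum : ∑ v ∈ S, y v = (ct src tgt S : ℤ) + 2 * z0 := by
    have h1 : ∑ v ∈ S, y v = ∑ v ∈ S, ((ct src tgt {v} : ℤ) +
        if v = s0 then 2 * (zp + z0) else 0) := by
      refine Finset.sum_congr rfl fun v _ => ?_
      simp only [hy]
      split_ifs with h
      · rw [h]
      · rw [add_zero]
    rw [h1, Finset.sum_add_distrib, Finset.sum_ite_eq' S s0, if_pos hs, hzp]
    ring
  have hDsum : ∑ v ∈ S, ∑ e, g e * inc src tgt e v = m * ((ct src tgt S : ℝ) + 2 * z0) := by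
    rw [← hct0, ← hz0, dv, Finset.sum_comm]
    refine Finset.sum_congr rfl fun e _ => ?_
    rw [← Finset.mul_sum]
    have h1 : ∑ v ∈ S, inc src tgt e v
        = (if src e ∈ S then 1 else 0) - (if tgt e ∈ S then 1 else 0) := by
      simp only [inc, Finset.sum_sub_distrib, Finset.sum_ite_eq]
    rw [h1]
    simp only [hg, inc, rh_eq_base hs]
    by_cases c1 : src e ∈ S <;> by_cases c2 : tgt e ∈ S <;> simp [c1, c2]
  set β : {v : V // v ∈ S} → ℝ := fun v => m * (y v : ℝ) - ∑ e, g e * inc src tgt e v with hβ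
  have hβ0 : ∑ v, β v = 0 := by
    simp only [hβ, Finset.sum_sub_distrib]
    have h1 : ∑ v : {v : V // v ∈ S}, ∑ e, g e * inc src tgt e v
        = ∑ v ∈ S, ∑ e, g e * inc src tgt e v :=
      Finset.sum_coe_sort S (fun v => ∑ e, g e * inc src tgt e v)
    have h2 : ∑ v : {v : V // v ∈ S}, m * (y v : ℝ) = ∑ v ∈ S, m * (y v : ℝ) :=
      Finset.sum_coe_sort S (fun v => m * (y v : ℝ))
    rw [h1, h2, hDsum, ← Finset.mul_sum]
    have h3 : ∑ v ∈ S, (y v : ℝ) = (ct src tgt S : ℝ) + 2 * z0 := by exact_mod_cast hysum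
    rw [h3]
    ring
  obtain ⟨z, h, -, hh1, hh2⟩ := hZO {v : V // v ∈ S} {e : E // src e ∈ S ∧ tgt e ∈ S}
    (sS src tgt S) (tS src tgt S) m hm hpart β hβ0
  set F : E → ℝ := fun e => if he : src e ∈ S ∧ tgt e ∈ S then h ⟨e, he⟩ else f e with hF
  have hFsplit : ∀ v, dv src tgt F v = ∑ e, g e * inc src tgt e v +
      ∑ e : {e : E // src e ∈ S ∧ tgt e ∈ S}, h e * inc src tgt e.1 v := by
    intro v
    have h1 : ∑ e : {e : E // src e ∈ S ∧ tgt e ∈ S}, h e * inc src tgt e.1 v
        = ∑ e, (if he : src e ∈ S ∧ tgt e ∈ S then h ⟨e, he⟩ * inc src tgt e v else 0) := by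
      have h3 : ∑ e, (if he : src e ∈ S ∧ tgt e ∈ S then h ⟨e, he⟩ * inc src tgt e v else 0)
          = ∑ e ∈ univ.filter (fun e => src e ∈ S ∧ tgt e ∈ S),
            (if he : src e ∈ S ∧ tgt e ∈ S then h ⟨e, he⟩ * inc src tgt e v else 0) := by
        refine (Finset.sum_subset (Finset.subset_univ _) fun e _ he => ?_).symm
        rw [Finset.mem_filter, not_and] at he
        rw [dif_neg (he (Finset.mem_univ _))]
      rw [h3, Finset.sum_subtype (univ.filter (fun e => src e ∈ S ∧ tgt e ∈ S))
        (p := fun e => src e ∈ S ∧ tgt e ∈ S) (fun e => by simp)]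
      refine Finset.sum_congr rfl fun e _ => ?_
      rw [dif_pos e.2]
    rw [h1, dv, ← Finset.sum_add_distrib]
    refine Finset.sum_congr rfl fun e _ => ?_
    by_cases he : src e ∈ S ∧ tgt e ∈ S
    · simp only [hF, hg, dif_pos he, if_pos he]; ring
    · simp only [hF, hg, dif_neg he, if_neg he]; ring
  refine ⟨F, fun e => ?_, fun v => ?_⟩
  · simp only [hF]
    split_ifs with he
    · exact hh2 _
    · exact hf1 e
  · by_cases hv : v ∈ S
    · have h1 := hh1 ⟨v, hv⟩
      have h2 : dv (sS src tgt S) (tS src tgt S) h ⟨v, hv⟩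
          = ∑ e : {e : E // src e ∈ S ∧ tgt e ∈ S}, h e * inc src tgt e.1 v := by
        rw [dv]
        refine Finset.sum_congr rfl fun e _ => ?_
        simp only [inc, sS, tS, Subtype.mk.injEq]
      rw [hFsplit, ← h2, h1]
      simp only [hβ]
      by_cases hvs : v = s0
      · refine ⟨zp + z0 + z ⟨v, hv⟩, ?_⟩
        simp only [hy, if_pos hvs]
        rw [show ct src tgt {v} = ct src tgt {s0} by rw [hvs]]
        push_cast
        ring
      · refine ⟨z ⟨v, hv⟩, ?_⟩
        simp only [hy, if_neg hvs]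
        push_cast
        ring
    · obtain ⟨zv, hzv⟩ := hf2 v
      refine ⟨zv, ?_⟩
      have h1 : ct (fun e => rh S s0 (src e)) (fun e => rh S s0 (tgt e)) {v} = ct src tgt {v} := by
        rw [ct_rh]
        congr 1
        ext u
        simp only [Finset.mem_filter, Finset.mem_univ, true_and, Finset.mem_singleton]
        exact rh_eq_of_not_mem hs hv u
      rw [← h1, ← hzv, dv, dv]
      refine Finset.sum_congr rfl fun e _ => ?_
      have h2 : inc (fun e => rh S s0 (src e)) (fun e => rh S s0 (tgt e)) e v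
          = inc src tgt e v := by
        simp only [inc, rh_eq_of_not_mem hs hv]
      rw [h2]
      by_cases he : src e ∈ S ∧ tgt e ∈ S
      · have h3 : inc src tgt e v = 0 := by
          have c1 : src e ≠ v := fun h' => hv (h' ▸ he.1)
          have c2 : tgt e ≠ v := fun h' => hv (h' ▸ he.2)
          simp [inc, c1, c2]
        rw [h3, mul_zero, mul_zero]
      · simp only [hF, dif_neg he]

end Pool.Agent.helper11.CFL.OddCut
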