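import Pool.Agent.helper62.CFL.Good

/-! Every multigraph whose odd edge cuts all have at least `2k+3` edges has a flow with values of
absolute value between `k` and `k+2`. -/

namespace Pool.Agent.helper11.CFL.OddCut

open Finset

variable {V E : Type} [Fintype V] [DecidableEq V] [Fintype E] [DecidableEq E]

/-- number of non loop edges -/
def nl (src tgt : E → V) : ℕ := (univ.filter (fun e => src e ≠ tgt e)).card

/-- non loop edges inside `S` -/
def eS (src tgt : E → V) (S : Finset V) : Finset E :=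
  univ.filter (fun e => src e ∈ S ∧ tgt e ∈ S ∧ src e ≠ tgt e)

omit [DecidableEq E] in
theorem sum_ct (src tgt : E → V) : ∑ v, ct src tgt {v} = 2 * nl src tgt := by
  simp only [ct]
  rw [Finset.sum_comm, nl, Finset.card_filter, Finset.mul_sum]
  refine Finset.sum_congr rfl fun e _ => ?_
  by_cases h : src e = tgt e
  · simp only [h, ne_eq, not_true_eq_false, if_false, mul_zero]
    refine Finset.sum_eq_zero fun v _ => ?_
    rw [if_neg]
    tauto
  · rw [if_pos h, mul_one]
    have h1 : ∀ v, (if (src e ∈ ({v} : Finset V) ∧ tgt e ∉ ({v} : Finset V)) ∨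
        (src e ∉ ({v} : Finset V) ∧ tgt e ∈ ({v} : Finset V)) then (1 : ℕ) else 0) =
        (if src e = v then 1 else 0) + (if tgt e = v then 1 else 0) := by
      intro v
      simp only [Finset.mem_singleton]
      by_cases h4 : src e = v
      · have h5 : ¬ tgt e = v := fun h6 => h (h4.trans h6.symm)
        simp [h4, h5]
      · by_cases h5 : tgt e = v <;> simp [h4, h5]
    rw [Finset.sum_congr rfl fun v _ => h1 v, Finset.sum_add_distrib]
    simp

omit [Fintype V] [DecidableEq E] in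
/-- a vertex meeting a non loop edge has positive degree -/
theorem ct_pos_src (src tgt : E → V) (e : E) (h : src e ≠ tgt e) : ct src tgt {src e} ≠ 0 := by
  rw [ct_single, Finset.card_ne_zero]
  exact ⟨e, Finset.mem_filter.mpr ⟨Finset.mem_univ _, Or.inl ⟨rfl, h.symm⟩⟩⟩

omit [Fintype V] [DecidableEq E] in
theorem ct_pos_tgt (src tgt : E → V) (e : E) (h : src e ≠ tgt e) : ct src tgt {tgt e} ≠ 0 := by
  rw [ct_single, Finset.card_ne_zero]
  exact ⟨e, Finset.mem_filter.mpr ⟨Finset.mem_univ _, Or.inr ⟨h, rfl⟩⟩⟩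

/-- a dense set, minimal for inclusion, satisfies the partition condition. -/
theorem exists_dense (src tgt : E → V) (m : ℕ) (hm : 0 < m)
    (hdeg : ∀ v, ct src tgt {v} = 0 ∨ 2 * m ≤ ct src tgt {v}) (hnl : 0 < nl src tgt) :
    ∃ S : Finset V, 0 < (eS src tgt S).card ∧ S.Nonempty ∧
      ∀ (p : ℕ) (π : {v : V // v ∈ S} → Fin p), Function.Surjective π →
      m * p ≤ (univ.filter (fun e => π (sS src tgt S e) ≠ π (tS src tgt S e))).card + m := by
  classical
  set W : Finset V := univ.filter (fun v => ct src tgt {v} ≠ 0) with hW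
  have hWmem : ∀ v, v ∈ W ↔ ct src tgt {v} ≠ 0 := fun v => by simp [hW]
  have hsum : 2 * m * W.card ≤ 2 * nl src tgt := by
    rw [← sum_ct]
    calc 2 * m * W.card = ∑ _v ∈ W, 2 * m := by rw [Finset.sum_const, smul_eq_mul]; ring
      _ ≤ ∑ v ∈ W, ct src tgt {v} := by
          refine Finset.sum_le_sum fun v hv => ?_
          rcases hdeg v with h | h
          · exact absurd h ((hWmem v).mp hv)
          · exact h
      _ ≤ ∑ v, ct src tgt {v} :=
          Finset.sum_le_sum_of_subset_of_nonneg (Finset.subset_univ _) fun _ _ _ => Nat.zero_le _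
  have heW : (eS src tgt W).card = nl src tgt := by
    rw [nl, eS]
    congr 1
    ext e
    simp only [Finset.mem_filter, Finset.mem_univ, true_and, hWmem]
    constructor
    · exact fun h => h.2.2
    · exact fun h => ⟨ct_pos_src src tgt e h, ct_pos_tgt src tgt e h, h⟩
  obtain ⟨e0, he0⟩ := Finset.card_pos.mp hnl
  rw [Finset.mem_filter] at he0
  have hW2 : 2 ≤ W.card := by
    have : 1 < W.card := Finset.one_lt_card.mpr
      ⟨src e0, (hWmem _).mpr (ct_pos_src src tgt e0 he0.2), tgt e0,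
        (hWmem _).mpr (ct_pos_tgt src tgt e0 he0.2), he0.2⟩
    omega
  set T : Finset (Finset V) := univ.filter (fun S => 2 ≤ S.card ∧
    m * S.card ≤ (eS src tgt S).card + m) with hT
  have hWT : W ∈ T := by
    rw [hT, Finset.mem_filter]
    refine ⟨Finset.mem_univ _, hW2, ?_⟩
    rw [heW]
    nlinarith
  obtain ⟨S, hS, hSmin⟩ := Finset.exists_min_image T Finset.card ⟨W, hWT⟩
  rw [hT, Finset.mem_filter] at hS
  obtain ⟨-, hS2, hSd⟩ := hS
  have hprop : ∀ R : Finset V, R ⊂ S → R.Nonempty → (eS src tgt R).card + m ≤ m * R.card := by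
    intro R hRS hR
    have hlt := Finset.card_lt_card hRS
    rcases Nat.lt_or_ge R.card 2 with h2 | h2
    · have h1 : R.card = 1 := by
        have := Finset.card_pos.mpr hR
        omega
      have h0 : (eS src tgt R).card = 0 := by
        rw [Finset.card_eq_zero, Finset.eq_empty_iff_forall_notMem]
        intro e he
        rw [eS, Finset.mem_filter] at he
        exact he.2.2.2 (Finset.card_le_one.mp (by omega) _ he.2.1 _ he.2.2.1)
      rw [h0, h1]
      omega
    · by_contra hcon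
      have hmem : R ∈ T := by
        rw [hT, Finset.mem_filter]
        exact ⟨Finset.mem_univ _, h2, by omega⟩
      have := hSmin R hmem
      omega
  refine ⟨S, ?_, Finset.card_pos.mp (by omega), ?_⟩
  · nlinarith
  intro p π hπ
  rcases Nat.lt_or_ge p 2 with hp | hp
  · interval_cases p
    · omega
    · omega
  set A : Fin p → Finset V := fun i => univ.filter (fun v => ∃ h : v ∈ S, π ⟨v, h⟩ = i) with hA
  have hAmem : ∀ i v, v ∈ A i ↔ ∃ h : v ∈ S, π ⟨v, h⟩ = i := fun i v => by simp [hA]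
  have hAne : ∀ i, (A i).Nonempty := by
    intro i
    obtain ⟨v, hv⟩ := hπ i
    exact ⟨v.1, (hAmem _ _).mpr ⟨v.2, hv⟩⟩
  have hAS : ∀ i, A i ⊂ S := by
    intro i
    rw [Finset.ssubset_iff_of_subset]
    · obtain ⟨j, hj⟩ : ∃ j : Fin p, j ≠ i := by
        by_cases h0 : i.val = 0
        · exact ⟨⟨1, by omega⟩, fun h => by rw [← h] at h0; simp at h0⟩
        · exact ⟨⟨0, by omega⟩, fun h => h0 (by rw [← h])⟩
      obtain ⟨v, hv⟩ := hAne j
      obtain ⟨h1, h2⟩ := (hAmem _ _).mp hv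
      refine ⟨v, h1, fun h => ?_⟩
      obtain ⟨h3, h4⟩ := (hAmem _ _).mp h
      exact hj (h2.symm.trans h4)
    · intro v hv
      exact ((hAmem _ _).mp hv).1
  have hAcard : ∑ i, (A i).card = S.card := by
    rw [← Finset.card_biUnion]
    · congr 1
      ext v
      simp only [Finset.mem_biUnion, Finset.mem_univ, true_and, hAmem]
      constructor
      · rintro ⟨i, h, -⟩; exact h
      · intro h; exact ⟨π ⟨v, h⟩, h, rfl⟩
    · intro i _ j _ hij
      show Disjoint (A i) (A j)
      rw [Finset.disjoint_left]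
      intro v h1 h2
      obtain ⟨h3, h4⟩ := (hAmem _ _).mp h1
      obtain ⟨h5, h6⟩ := (hAmem _ _).mp h2
      exact hij (h4.symm.trans h6)
  set C := univ.filter (fun e => π (sS src tgt S e) ≠ π (tS src tgt S e)) with hC
  have hcover : eS src tgt S ⊆ C.image Subtype.val ∪ univ.biUnion (fun i => eS src tgt (A i)) := by
    intro e he
    rw [eS, Finset.mem_filter] at he
    obtain ⟨-, h1, h2, h3⟩ := he
    rw [Finset.mem_union, Finset.mem_image, Finset.mem_biUnion]
    by_cases hc : π ⟨src e, h1⟩ = π ⟨tgt e, h2⟩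
    · right
      refine ⟨π ⟨src e, h1⟩, Finset.mem_univ _, ?_⟩
      rw [eS, Finset.mem_filter]
      exact ⟨Finset.mem_univ _, (hAmem _ _).mpr ⟨h1, rfl⟩, (hAmem _ _).mpr ⟨h2, hc.symm⟩, h3⟩
    · left
      exact ⟨⟨e, h1, h2⟩, Finset.mem_filter.mpr ⟨Finset.mem_univ _, hc⟩, rfl⟩
  have hcount : (eS src tgt S).card ≤ C.card + ∑ i, (eS src tgt (A i)).card :=
    (Finset.card_le_card hcover).trans ((Finset.card_union_le _ _).trans
      (Nat.add_le_add Finset.card_image_le Finset.card_biUnion_le))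
  have hparts : ∑ i, ((eS src tgt (A i)).card + m) ≤ ∑ i, m * (A i).card :=
    Finset.sum_le_sum fun i _ => hprop _ (hAS i) (hAne i)
  rw [Finset.sum_add_distrib, ← Finset.mul_sum, hAcard, Finset.sum_const, Finset.card_univ,
    Fintype.card_fin, smul_eq_mul] at hparts
  have : m * p = p * m := mul_comm _ _
  omega

omit [Fintype V] in
theorem nl_lift (src tgt : E → V) (v : V) (e0 e1 : E) (hne : e0 ≠ e1)
    (h0 : At src tgt v e0) (h1 : At src tgt v e1) :
    nl (ls src tgt v e0 e1) (lt src tgt v e0 e1) < nl src tgt := by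
  rw [nl, nl]
  refine Finset.card_lt_card ?_
  have n0 : src e0 ≠ tgt e0 := by
    rcases h0 with ⟨c1, c2⟩ | ⟨c1, c2⟩
    · rw [c1]; exact c2.symm
    · rw [c2]; exact c1
  have n1 : src e1 ≠ tgt e1 := by
    rcases h1 with ⟨c1, c2⟩ | ⟨c1, c2⟩
    · rw [c1]; exact c2.symm
    · rw [c2]; exact c1
  rw [Finset.ssubset_iff_of_subset]
  · refine ⟨e1, Finset.mem_filter.mpr ⟨Finset.mem_univ _, n1⟩, ?_⟩
    rw [Finset.mem_filter]
    rintro ⟨_, h⟩
    apply h
    simp only [ls, lt, if_neg hne.symm, if_true]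
  · intro e he
    rw [Finset.mem_filter] at he
    refine Finset.mem_filter.mpr ⟨Finset.mem_univ _, ?_⟩
    by_cases c0 : e = e0
    · rw [c0]; exact n0
    by_cases c1 : e = e1
    · rw [c1]; exact n1
    have := he.2
    simpa only [ls, lt, if_neg c0, if_neg c1] using this

theorem good_of_odd (hZO : ZO_stmt) (k : ℕ) : ∀ (n : ℕ) (src tgt : E → V), nl src tgt = n →
    (∀ S : Finset V, Odd (ct src tgt S) → 2 * k + 3 ≤ ct src tgt S) → Good src tgt (k + 1) := by
  classical
  intro n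
  induction n using Nat.strong_induction_on with
  | _ n ih =>
  intro src tgt hn hodd
  rcases Nat.eq_zero_or_pos (nl src tgt) with h0 | hpos
  · -- only loops
    have hall : ∀ e, src e = tgt e := by
      intro e
      by_contra h
      have : e ∈ univ.filter (fun e => src e ≠ tgt e) :=
        Finset.mem_filter.mpr ⟨Finset.mem_univ _, h⟩
      rw [nl, Finset.card_eq_zero] at h0
      rw [h0] at this
      simp at this
    refine ⟨fun _ => 0, fun e => by simp, fun v => ⟨0, ?_⟩⟩
    have h1 : ct src tgt {v} = 0 := by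
      rw [ct]
      refine Finset.sum_eq_zero fun e _ => ?_
      rw [hall e, if_neg]
      tauto
    rw [h1]
    simp [dv]
  by_cases hev : ∃ v, Even (ct src tgt {v}) ∧ 0 < ct src tgt {v}
  · obtain ⟨v, hv1, hv2⟩ := hev
    obtain ⟨e0, e1, hne, h0, h1, hl⟩ := lift_exists src tgt (2 * k + 3)
      ⟨k + 1, by ring⟩ hodd v hv1 hv2
    have hlt := nl_lift src tgt v e0 e1 hne h0 h1
    exact good_lift src tgt v e0 e1 hne h0 h1 (k + 1)
      (ih _ (by rw [← hn]; exact hlt) _ _ rfl hl)
  · push Not at hev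
    have hdeg : ∀ v, ct src tgt {v} = 0 ∨ 2 * (k + 1) ≤ ct src tgt {v} := by
      intro v
      by_cases hz : ct src tgt {v} = 0
      · exact Or.inl hz
      · right
        have ho : Odd (ct src tgt {v}) := by
          rw [← Nat.not_even_iff_odd]
          intro he
          have := hev v he
          omega
        have := hodd _ ho
        omega
    obtain ⟨S, hS1, ⟨s0, hs0⟩, hS3⟩ := exists_dense src tgt (k + 1) (Nat.succ_pos k) hdeg hpos
    refine good_contract hZO src tgt (k + 1) (Nat.succ_pos k) S s0 hs0 hS3 ?_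
    refine ih _ ?_ _ _ rfl ?_
    · rw [← hn, nl, nl]
      refine Finset.card_lt_card ?_
      rw [Finset.ssubset_iff_of_subset]
      · obtain ⟨e, he⟩ := Finset.card_pos.mp hS1
        rw [eS, Finset.mem_filter] at he
        refine ⟨e, Finset.mem_filter.mpr ⟨Finset.mem_univ _, he.2.2.2⟩, ?_⟩
        rw [Finset.mem_filter]
        rintro ⟨_, h⟩
        exact h (by simp only [rh, if_pos he.2.1, if_pos he.2.2.1])
      · intro e he
        rw [Finset.mem_filter] at he
        refine Finset.mem_filter.mpr ⟨Finset.mem_univ _, fun h => he.2 ?_⟩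
        rw [h]
    · intro X hX
      rw [ct_rh] at hX ⊢
      exact hodd _ hX

/-- from a good weighting to the flow -/
theorem flow_of_good (hRD : RD_stmt) (src tgt : E → V) (k : ℕ) (hG : Good src tgt (k + 1)) :
    ∃ F : E → ℤ, (∀ e, (k : ℤ) ≤ |F e| ∧ |F e| ≤ (k : ℤ) + 2) ∧
      ∀ v, ∑ e ∈ univ.filter (fun e => src e = v), F e =
        ∑ e ∈ univ.filter (fun e => tgt e = v), F e := by
  classical
  set K : ℝ := (k : ℝ) + 1 with hK
  have hKpos : 0 < K := by positivity
  set a : V → ℤ := dvz src tgt (fun _ => 1) with ha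
  have haR : ∀ v, dv src tgt (fun _ => (1 : ℝ)) v = a v := by
    intro v
    have := dv_cast src tgt (fun _ => (1 : ℤ)) v
    simpa using this
  have hpar : ∀ v, ∃ z : ℤ, (ct src tgt {v} : ℤ) = a v + 2 * z := by
    intro v
    have h1 := pr_eq src tgt {v}
    have h2 : (pr src tgt {v} : ℤ) = ∑ e ∈ univ.filter (fun e => src e = v), (1 : ℤ)
        + ∑ e ∈ univ.filter (fun e => tgt e = v), (1 : ℤ) := by
      simp only [pr, Finset.mem_singleton, Finset.sum_add_distrib, Finset.sum_filter]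
      push_cast
      rfl
    have h3 : a v = ∑ e ∈ univ.filter (fun e => src e = v), (1 : ℤ)
        - ∑ e ∈ univ.filter (fun e => tgt e = v), (1 : ℤ) := rfl
    refine ⟨∑ e ∈ univ.filter (fun e => tgt e = v), (1 : ℤ) - bt src tgt {v}, ?_⟩
    have h4 : (pr src tgt {v} : ℤ) = ct src tgt {v} + 2 * bt src tgt {v} := by
      rw [h1]; push_cast; ring
    linarith
  obtain ⟨f, hb, hf0⟩ := hG
  have hf1 : ∀ v, ∃ z : ℤ, dv src tgt f v = K * ((a v : ℝ) + 2 * z) := by
    intro v
    obtain ⟨z1, hz1⟩ := hf0 v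
    obtain ⟨z2, hz2⟩ := hpar v
    refine ⟨z2 + z1, ?_⟩
    have h5 : (ct src tgt {v} : ℝ) = a v + 2 * z2 := by exact_mod_cast hz2
    rw [hz1, h5, hK]
    push_cast
    ring
  choose z hf' using hf1
  have hfb : ∀ e, -1 ≤ f e ∧ f e ≤ 1 := fun e => abs_le.mp (hb e)
  -- orientation
  obtain ⟨y, hy1, hy2⟩ := hRD V E src tgt (fun e => (1 / 2) * (K⁻¹ * f e + 1)) (by
    intro v
    refine ⟨a v + z v, ?_⟩
    rw [dv_smul, dv_add, dv_smul, hf', haR]
    rw [← mul_assoc, inv_mul_cancel₀ hKpos.ne']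
    push_cast
    ring)
  have hKi : 0 < K⁻¹ := inv_pos.mpr hKpos
  have hKi1 : K⁻¹ ≤ 1 := by
    apply inv_le_one_of_one_le₀
    rw [hK]
    have : (0 : ℝ) ≤ k := Nat.cast_nonneg k
    linarith
  have hy : ∀ e, y e = 0 ∨ y e = 1 := by
    intro e
    obtain ⟨h1, h2⟩ := hy1 e
    obtain ⟨h3, h4⟩ := hfb e
    have h5 : 0 ≤ (1 / 2) * (K⁻¹ * f e + 1) := by nlinarith
    have h6 : (1 / 2) * (K⁻¹ * f e + 1) ≤ 1 := by nlinarith
    have h7 : (0 : ℤ) ≤ ⌊(1 / 2) * (K⁻¹ * f e + 1)⌋ := Int.floor_nonneg.mpr h5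
    have h8 : ⌈(1 / 2) * (K⁻¹ * f e + 1)⌉ ≤ (1 : ℤ) := by
      apply Int.ceil_le.mpr
      simpa using h6
    omega
  have hdy : ∀ v, dv src tgt (fun e => (y e : ℝ)) v = (a v : ℝ) + z v := by
    intro v
    rw [hy2 v, dv_smul, dv_add, dv_smul, hf', haR]
    rw [← mul_assoc, inv_mul_cancel₀ hKpos.ne']
    ring
  -- the correction
  obtain ⟨g, hg1, hg2⟩ := hRD V E src tgt (fun e => (-1) * f e) (by
    intro v
    refine ⟨-((k + 1) * (a v + 2 * z v)), ?_⟩
    rw [dv_smul, hf', hK]
    push_cast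
    ring)
  have hg : ∀ e, -1 ≤ g e ∧ g e ≤ 1 := by
    intro e
    obtain ⟨h1, h2⟩ := hg1 e
    obtain ⟨h3, h4⟩ := hfb e
    have h7 : (-1 : ℤ) ≤ ⌊(-1) * f e⌋ := by
      apply Int.le_floor.mpr
      push_cast
      linarith
    have h8 : ⌈(-1) * f e⌉ ≤ (1 : ℤ) := by
      apply Int.ceil_le.mpr
      push_cast
      linarith
    omega
  have hdg : ∀ v, dv src tgt (fun e => (g e : ℝ)) v = - (K * ((a v : ℝ) + 2 * z v)) := by
    intro v
    rw [hg2 v, dv_smul, hf']
    ring
  refine ⟨fun e => (k + 1) * (2 * y e - 1) + g e, fun e => ?_, fun v => ?_⟩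
  · have hk0 : (0 : ℤ) ≤ k := Int.natCast_nonneg k
    obtain ⟨h1, h2⟩ := hg e
    show (k : ℤ) ≤ |((k : ℤ) + 1) * (2 * y e - 1) + g e| ∧
      |((k : ℤ) + 1) * (2 * y e - 1) + g e| ≤ (k : ℤ) + 2
    rcases hy e with h | h
    · rw [h]
      have h9 : ((k : ℤ) + 1) * (2 * 0 - 1) + g e = -((k : ℤ) + 1 - g e) := by ring
      rw [h9, abs_neg, abs_of_nonneg (by linarith)]
      constructor <;> linarith
    · rw [h]
      have h9 : ((k : ℤ) + 1) * (2 * 1 - 1) + g e = ((k : ℤ) + 1 + g e) := by ring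
      rw [h9, abs_of_nonneg (by linarith)]
      constructor <;> linarith
  · have h10 : (dvz src tgt (fun e => ((k : ℤ) + 1) * (2 * y e - 1) + g e) v : ℝ) = 0 := by
      rw [← dv_cast]
      have h11 : (fun e => ((((k : ℤ) + 1) * (2 * y e - 1) + g e : ℤ) : ℝ)) =
          fun e => (2 * K) * (y e : ℝ) + ((-K) * (fun _ => (1 : ℝ)) e + (g e : ℝ)) := by
        funext e
        rw [hK]
        push_cast
        ring
      rw [h11, dv_add, dv_smul, dv_add, dv_smul, hdy, haR, hdg]
      ring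
    have h12 : dvz src tgt (fun e => ((k : ℤ) + 1) * (2 * y e - 1) + g e) v = 0 := by
      exact_mod_cast h10
    unfold dvz at h12
    linarith

/-- MAIN : odd edge cuts of size at least `2k+3` suffice. -/
theorem odd_cut_flow (hZO : ZO_stmt) (hRD : RD_stmt) (k : ℕ) (src tgt : E → V)
    (h : ∀ S : Finset V,
      Odd (univ.filter (fun e => (src e ∈ S ∧ tgt e ∉ S) ∨ (src e ∉ S ∧ tgt e ∈ S))).card →
      2 * k + 3 ≤
        (univ.filter (fun e => (src e ∈ S ∧ tgt e ∉ S) ∨ (src e ∉ S ∧ tgt e ∈ S))).card) :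
    ∃ F : E → ℤ, (∀ e, (k : ℤ) ≤ |F e| ∧ |F e| ≤ (k : ℤ) + 2) ∧
      ∀ v, ∑ e ∈ univ.filter (fun e => src e = v), F e =
        ∑ e ∈ univ.filter (fun e => tgt e = v), F e := by
  refine flow_of_good hRD src tgt k (good_of_odd hZO k _ src tgt rfl fun S hS => ?_)
  have h1 : ct src tgt S =
      (univ.filter (fun e => (src e ∈ S ∧ tgt e ∉ S) ∨ (src e ∉ S ∧ tgt e ∈ S))).card := by
    rw [Finset.card_filter, ct]
  rw [h1] at hS ⊢
  exact h S hS

end Pool.Agent.helper11.CFL.OddCut
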